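import Pool.Agent.TH292.SL.Words

open MeasureTheory

namespace SubstLeb

variable {A : Type}

/-- the correlation of the word `w` at distance `n + 1`: the sum of `f(w_{j+n+1}) conj f(w_j)` -/
noncomputable def cor (f : A → ℂ) (n : ℕ) : List A → ℂ
  | [] => 0
  | a :: w => (w.map f).getD n 0 * (starRingEnd ℂ) (f a) + cor f n w

variable {f : A → ℂ} (hf : ∀ a, ‖f a‖ = 1)

include hf in
lemma norm_getD_le (n : ℕ) (w : List A) : ‖(w.map f).getD n 0‖ ≤ 1 := by
  rw [List.getD_eq_getElem?_getD]
  rcases h : (w.map f)[n]? with _ | b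
  · simp
  · rw [List.getElem?_map, Option.map_eq_some_iff] at h
    obtain ⟨a, -, ha⟩ := h
    simp [← ha, hf a]

include hf in
lemma norm_cor_le (n : ℕ) (w : List A) : ‖cor f n w‖ ≤ w.length := by
  induction w with
  | nil => simp [cor]
  | cons a w ih =>
    rw [cor, List.length_cons]
    push_cast
    have h1 := norm_getD_le hf n w
    have h2 : ‖(w.map f).getD n 0 * (starRingEnd ℂ) (f a)‖ ≤ 1 := by
      rw [norm_mul, RCLike.norm_conj, hf a, mul_one]; exact h1
    calc _ ≤ _ := norm_add_le _ _
      _ ≤ 1 + w.length := add_le_add h2 ih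
      _ = _ := by ring

include hf in
lemma cor_append (n : ℕ) (u v : List A) :
    ‖cor f n (u ++ v) - cor f n u - cor f n v‖ ≤ min (u.length : ℝ) (n + 1) := by
  induction u with
  | nil =>
    simp only [List.nil_append, cor, sub_zero, sub_self, norm_zero, List.length_nil, Nat.cast_zero]
    positivity
  | cons a u ih =>
    have h2 : ∀ z : ℂ, ‖z * (starRingEnd ℂ) (f a)‖ = ‖z‖ := by
      intro z
      rw [norm_mul, RCLike.norm_conj, hf a, mul_one]
    have e : cor f n (a :: u ++ v) - cor f n (a :: u) - cor f n v =
        (((u ++ v).map f).getD n 0 - (u.map f).getD n 0) * (starRingEnd ℂ) (f a) +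
          (cor f n (u ++ v) - cor f n u - cor f n v) := by
      rw [List.cons_append, cor, cor]
      ring
    rw [e]
    refine (norm_add_le _ _).trans ?_
    rw [h2, List.length_cons]
    push_cast
    rcases lt_or_ge n u.length with h | h
    · have h3 : ((u ++ v).map f).getD n 0 = (u.map f).getD n 0 := by
        rw [List.getD_eq_getElem?_getD, List.getD_eq_getElem?_getD, List.map_append,
          List.getElem?_append_left (by simpa using h)]
      rw [h3, sub_self, norm_zero, zero_add]
      refine ih.trans ?_
      apply min_le_min _ le_rfl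
      linarith
    · have h3 : (u.map f).getD n 0 = 0 := by
        rw [List.getD_eq_default]
        simpa using h
      rw [h3, sub_zero]
      have h4 := norm_getD_le hf n (u ++ v)
      have h5 : min (u.length : ℝ) (n + 1) ≤ u.length := min_le_left _ _
      have h6 : (u.length : ℝ) ≤ n := by exact_mod_cast h
      rw [le_min_iff]
      constructor <;> linarith

include hf in
lemma cor_append' (n : ℕ) (u v : List A) :
    ‖cor f n (u ++ v) - (cor f n u + cor f n v)‖ ≤ n + 1 := by
  have := (cor_append hf n u v).trans (min_le_right _ _)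
  rwa [sub_sub] at this

include hf in
lemma cor_flatMap (n : ℕ) (φ : A → List A) (v : List A) :
    ‖cor f n (v.flatMap φ) - (v.map (fun b => cor f n (φ b))).sum‖ ≤ (n + 1) * v.length := by
  induction v with
  | nil => simp [cor]
  | cons b v ih =>
    rw [List.flatMap_cons, List.map_cons, List.sum_cons, List.length_cons]
    have h1 := cor_append' hf n (φ b) (v.flatMap φ)
    have e : cor f n (φ b ++ v.flatMap φ) - (cor f n (φ b) + (v.map (fun b => cor f n (φ b))).sum) =
        (cor f n (φ b ++ v.flatMap φ) - (cor f n (φ b) + cor f n (v.flatMap φ))) +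
        (cor f n (v.flatMap φ) - (v.map (fun b => cor f n (φ b))).sum) := by ring
    rw [e]
    refine (norm_add_le _ _).trans ?_
    push_cast
    linarith

include hf in
/-- correlation of a word which is decomposed into blocks -/
lemma cor_blocks (n : ℕ) (φ : A → List A) (s v p : List A) :
    ‖cor f n (s ++ v.flatMap φ ++ p) - (v.map (fun b => cor f n (φ b))).sum‖ ≤
      (n + 1) * v.length + (s.length + p.length + 2 * (n + 1)) := by
  have h1 := cor_append' hf n (s ++ v.flatMap φ) p
  have h2 := cor_append' hf n s (v.flatMap φ)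
  have h3 := cor_flatMap hf n φ v
  have h4 := norm_cor_le hf n s
  have h5 := norm_cor_le hf n p
  have e : cor f n (s ++ v.flatMap φ ++ p) - (v.map (fun b => cor f n (φ b))).sum =
      (cor f n (s ++ v.flatMap φ ++ p) - (cor f n (s ++ v.flatMap φ) + cor f n p)) +
      (cor f n (s ++ v.flatMap φ) - (cor f n s + cor f n (v.flatMap φ))) +
      (cor f n (v.flatMap φ) - (v.map (fun b => cor f n (φ b))).sum) + cor f n s + cor f n p := by
    ring
  rw [e]
  have := norm_add_le ((cor f n (s ++ v.flatMap φ ++ p) - (cor f n (s ++ v.flatMap φ) + cor f n p)) +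
      (cor f n (s ++ v.flatMap φ) - (cor f n s + cor f n (v.flatMap φ))) +
      (cor f n (v.flatMap φ) - (v.map (fun b => cor f n (φ b))).sum) + cor f n s) (cor f n p)
  have := norm_add_le ((cor f n (s ++ v.flatMap φ ++ p) - (cor f n (s ++ v.flatMap φ) + cor f n p)) +
      (cor f n (s ++ v.flatMap φ) - (cor f n s + cor f n (v.flatMap φ))) +
      (cor f n (v.flatMap φ) - (v.map (fun b => cor f n (φ b))).sum)) (cor f n s)
  have := norm_add_le ((cor f n (s ++ v.flatMap φ ++ p) - (cor f n (s ++ v.flatMap φ) + cor f n p)) +
      (cor f n (s ++ v.flatMap φ) - (cor f n s + cor f n (v.flatMap φ))))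
      (cor f n (v.flatMap φ) - (v.map (fun b => cor f n (φ b))).sum)
  have := norm_add_le (cor f n (s ++ v.flatMap φ ++ p) - (cor f n (s ++ v.flatMap φ) + cor f n p))
      (cor f n (s ++ v.flatMap φ) - (cor f n s + cor f n (v.flatMap φ)))
  linarith

/-! ### windows of sequences -/

lemma window_succ (x : BiSeq A) (k : ℤ) (l : ℕ) :
    window x k (l + 1) = x k :: window x (k + 1) l := by
  unfold window
  rw [List.range_succ_eq_map, List.map_cons, List.map_map]
  simp only [Nat.cast_zero, add_zero, List.cons.injEq, true_and]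
  apply List.map_congr_left
  intro j _
  simp only [Function.comp, Nat.succ_eq_add_one]
  push_cast
  congr 1
  ring

lemma window_length (x : BiSeq A) (k : ℤ) (l : ℕ) : (window x k l).length = l := by
  simp [window]

lemma window_getElem? (x : BiSeq A) (k : ℤ) (l : ℕ) {j : ℕ} (hj : j < l) :
    (window x k l)[j]? = some (x (k + j)) := by
  unfold window
  rw [List.getElem?_map, List.getElem?_range hj]
  rfl

include hf in
lemma cor_window (n : ℕ) (x : BiSeq A) (k : ℤ) (N : ℕ) :
    ‖cor f n (window x k N) -
      ∑ j ∈ Finset.range N, f (x (k + j + (n + 1))) * (starRingEnd ℂ) (f (x (k + j)))‖ ≤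
      min (N : ℝ) (n + 1) := by
  induction N generalizing k with
  | zero => simp [window, cor]; positivity
  | succ N ih =>
    have h2 : ∀ z : ℂ, ‖z * (starRingEnd ℂ) (f (x k))‖ = ‖z‖ := by
      intro z
      rw [norm_mul, RCLike.norm_conj, hf _, mul_one]
    rw [window_succ, cor, Finset.sum_range_succ']
    have e1 : ∑ j ∈ Finset.range N, f (x (k + ((j + 1 : ℕ) : ℤ) + (n + 1))) *
        (starRingEnd ℂ) (f (x (k + ((j + 1 : ℕ) : ℤ)))) =
        ∑ j ∈ Finset.range N, f (x (k + 1 + j + (n + 1))) * (starRingEnd ℂ) (f (x (k + 1 + j))) := by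
      apply Finset.sum_congr rfl
      intro j _
      have h1 : k + ((j + 1 : ℕ) : ℤ) + (n + 1) = k + 1 + j + (n + 1) := by push_cast; ring
      have h2 : k + ((j + 1 : ℕ) : ℤ) = k + 1 + j := by push_cast; ring
      rw [h1, h2]
    rw [e1]
    simp only [Nat.cast_zero, add_zero]
    have e2 : ∀ a b c d : ℂ, a * (starRingEnd ℂ) (f (x k)) + b - (c + d * (starRingEnd ℂ) (f (x k))) =
        (a - d) * (starRingEnd ℂ) (f (x k)) + (b - c) := by intro a b c d; ring
    rw [e2]
    refine (norm_add_le _ _).trans ?_
    rw [h2]
    have ih' := ih (k + 1)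
    rcases lt_or_ge n N with h | h
    · have h3 : ((window x (k + 1) N).map f).getD n 0 = f (x (k + (n + 1))) := by
        rw [List.getD_eq_getElem?_getD, List.getElem?_map, window_getElem? _ _ _ h]
        simp only [Option.map_some, Option.getD_some]
        congr 2
        ring
      rw [h3, sub_self, norm_zero, zero_add]
      refine ih'.trans ?_
      apply min_le_min _ le_rfl
      push_cast
      linarith
    · have h3 : ((window x (k + 1) N).map f).getD n 0 = 0 := by
        rw [List.getD_eq_default]
        simpa [window_length] using h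
      rw [h3, zero_sub, norm_neg, hf]
      have h5 : min (N : ℝ) (n + 1) ≤ N := min_le_left _ _
      have h6 : (N : ℝ) ≤ n := by exact_mod_cast h
      rw [le_min_iff]
      push_cast
      constructor <;> linarith

end SubstLeb
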