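import Mathlib

/-!
# Substitutions, their subshifts, and Lebesgue spectral components

Definitions used in the hand-in for `MP_db984e_an`.
-/

open MeasureTheory

namespace SubstLeb

/-- A substitution on the alphabet `A`: every letter is sent to a non-empty word. -/
structure Substitution (A : Type) where
  /-- the image `σ(a)` of the letter `a` -/
  word : A → List A
  word_ne_nil : ∀ a, word a ≠ []

/-- Bi-infinite sequences over the alphabet `A`. -/
def BiSeq (A : Type) : Type := ℤ → A

/-- The product topology of the discrete topology on `A`. -/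
instance (A : Type) : TopologicalSpace (BiSeq A) :=
  @Pi.topologicalSpace ℤ (fun _ => A) (fun _ => ⊥)

/-- The Borel `σ`-algebra. -/
instance (A : Type) : MeasurableSpace (BiSeq A) := borel (BiSeq A)

instance (A : Type) : BorelSpace (BiSeq A) := ⟨rfl⟩

/-- The `n`-th power `Tⁿ` of the left shift, `(Tⁿ x)_k = x_{k+n}`; the left shift is `shift 1`. -/
def shift {A : Type} (n : ℤ) (x : BiSeq A) : BiSeq A := fun k => x (k + n)

/-- The finite word `x_k x_{k+1} ⋯ x_{k+l-1}`. -/
def window {A : Type} (x : BiSeq A) (k : ℤ) (l : ℕ) : List A :=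
  (List.range l).map (fun j : ℕ => x (k + (j : ℤ)))

namespace Substitution

variable {A : Type} (σ : Substitution A)

/-- The action of `σ` on finite words, by concatenation. -/
def onWord (w : List A) : List A := w.flatMap σ.word

/-- The word `σⁿ(a)`. -/
def iter (n : ℕ) (a : A) : List A := σ.onWord^[n] [a]

/-- The substitution matrix: the entry `(i, j)` is the number of occurrences of the letter `i` in
`σ(j)`. -/
def matrix [DecidableEq A] : Matrix A A ℕ := fun i j => (σ.word j).count i

/-- `σ` is primitive: some power of its matrix has only positive entries. -/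
def IsPrimitive [Fintype A] [DecidableEq A] : Prop :=
  ∃ k : ℕ, ∀ i j, 0 < (σ.matrix ^ k) i j

/-- The space `X_σ`: all bi-infinite sequences all of whose finite subwords occur in some
`σⁿ(a)`. -/
def space : Set (BiSeq A) :=
  {x | ∀ (k : ℤ) (l : ℕ), ∃ (n : ℕ) (a : A), window x k l <:+: σ.iter n a}

/-- `μ` is a shift-invariant Borel probability measure on `X_σ`. (Measures on `X_σ` are viewed as
measures on the space of all bi-infinite sequences which vanish outside of `X_σ`.) -/
structure IsInvariantMeasure (μ : Measure (BiSeq A)) : Prop where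
  prob : IsProbabilityMeasure μ
  supp : μ (σ.space)ᶜ = 0
  inv : μ.map (shift 1) = μ

end Substitution

/-- `θ` is the Perron–Frobenius eigenvalue of the non-negative matrix `M`: it is an eigenvalue with
a positive eigenvector, and it is at least the modulus of every complex eigenvalue of `M`. -/
def IsPerronEigenvalue {A : Type} [Fintype A] (M : Matrix A A ℕ) (θ : ℝ) : Prop :=
  (∃ v : A → ℝ, (∀ a, 0 < v a) ∧ (M.map (fun n : ℕ => (n : ℝ))).mulVec v = θ • v) ∧
    ∀ (z : ℂ) (v : A → ℂ), v ≠ 0 → (M.map (fun n : ℕ => (n : ℂ))).mulVec v = z • v → ‖z‖ ≤ θ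

/-- `ν` is the spectral measure of `f ∈ L²(μ)` for the Koopman operator `U f = f ∘ T` of the shift:
the finite measure on the circle `ℝ/ℤ` with
`∫ e^{2πint} dν(t) = ⟨Uⁿ f, f⟩ = ∫ f(Tⁿx) conj(f(x)) dμ(x)` for all `n ∈ ℤ`. -/
structure IsSpectralMeasure {A : Type} (μ : Measure (BiSeq A)) (f : BiSeq A → ℂ)
    (ν : Measure UnitAddCircle) : Prop where
  finite : IsFiniteMeasure ν
  coeff : ∀ n : ℤ, ∫ t, fourier n t ∂ν = ∫ x, f (shift n x) * (starRingEnd ℂ) (f x) ∂μ

/-- The system `(X_σ, T, μ)` has a Lebesgue spectral component: the spectral measure of some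
`f ∈ L²(μ)` (equivalently, the maximal spectral type, which dominates all the spectral measures and
is itself one of them) is not singular to Lebesgue measure. -/
def HasLebesgueComponent {A : Type} (μ : Measure (BiSeq A)) : Prop :=
  ∃ f : BiSeq A → ℂ, MemLp f 2 μ ∧ ∃ ν : Measure UnitAddCircle,
    IsSpectralMeasure μ f ν ∧ ¬ (ν ⟂ₘ (volume : Measure UnitAddCircle))

end SubstLeb
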