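import Pool.Agent.TH292.SL.Sub

open MeasureTheory

namespace SubstLeb

/-- additive functional -/
def S (d : Al → ℝ) (w : List Al) : ℝ := (w.map d).sum

lemma S_append (d : Al → ℝ) (u v : List Al) : S d (u ++ v) = S d u + S d v := by simp [S]

lemma S_flatMap (d d' : Al → ℝ) (l : ℝ) (h : ∀ a, S d (sub.word a) = l * d' a) (v : List Al) :
    S d (v.flatMap sub.word) = l * S d' v := by
  induction v with
  | nil => simp [S]
  | cons a v ih =>
    rw [List.flatMap_cons, S_append, h, ih]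
    simp only [S, List.map_cons, List.sum_cons]
    ring

lemma abs_S_le (d : Al → ℝ) (C : ℝ) (h : ∀ a, |d a| ≤ C) (v : List Al) :
    |S d v| ≤ C * v.length := by
  induction v with
  | nil => simp [S]
  | cons a v ih =>
    have : S d (a :: v) = d a + S d v := by simp [S]
    rw [this, List.length_cons]
    refine (abs_add_le _ _).trans ?_
    push_cast
    have := h a
    linarith

/-- the three discrepancy functionals -/
noncomputable def dD (a : Al) : ℝ := if a.1 = 0 ∨ a.1 = 1 then -1 else √2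
noncomputable def dE (a : Al) : ℝ := if a.1 = 0 then 1 else if a.1 = 1 then -1 else 0
noncomputable def dG (a : Al) : ℝ := if a.1 = 2 then 1 else if a.1 = 3 then -1 else 0

lemma sqrt_two_mul : √2 * √2 = (2 : ℝ) := Real.mul_self_sqrt (by norm_num)

lemma sqrt_two_ge : (14 / 10 : ℝ) ≤ √2 := by
  apply Real.le_sqrt_of_sq_le; norm_num

lemma sqrt_two_le : √2 ≤ (3 / 2 : ℝ) := by
  rw [Real.sqrt_le_left (by norm_num)]; norm_num

lemma word_D (a : Al) : S dD (sub.word a) = (2 - √2) * dD a := by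
  obtain ⟨c, g⟩ := a
  have := sqrt_two_mul
  fin_cases c
  · change S dD (sub.word (0, g)) = (2 - √2) * dD (0, g)
    rw [word0]; simp [S, dD]; ring
  · change S dD (sub.word (1, g)) = (2 - √2) * dD (1, g)
    rw [word1]; simp [S, dD]; ring
  · change S dD (sub.word (2, g)) = (2 - √2) * dD (2, g)
    rw [word2]; simp [S, dD]; linarith
  · change S dD (sub.word (3, g)) = (2 - √2) * dD (3, g)
    rw [word3]; simp [S, dD]; linarith

lemma word_E (a : Al) : S dE (sub.word a) = 0 * dE a := by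
  obtain ⟨c, g⟩ := a
  fin_cases c
  · change S dE (sub.word (0, g)) = 0 * dE (0, g)
    rw [word0]; simp [S, dE]
  · change S dE (sub.word (1, g)) = 0 * dE (1, g)
    rw [word1]; simp [S, dE]
  · change S dE (sub.word (2, g)) = 0 * dE (2, g)
    rw [word2]; simp [S, dE]
  · change S dE (sub.word (3, g)) = 0 * dE (3, g)
    rw [word3]; simp [S, dE]

lemma word_G (a : Al) : S dG (sub.word a) = 1 * dE a := by
  obtain ⟨c, g⟩ := a
  fin_cases c
  · change S dG (sub.word (0, g)) = 1 * dE (0, g)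
    rw [word0]; simp [S, dG, dE]
  · change S dG (sub.word (1, g)) = 1 * dE (1, g)
    rw [word1]; simp [S, dG, dE]
  · change S dG (sub.word (2, g)) = 1 * dE (2, g)
    rw [word2]; simp [S, dG, dE]
  · change S dG (sub.word (3, g)) = 1 * dE (3, g)
    rw [word3]; simp [S, dG, dE]

lemma word_len_le (a : Al) : (sub.word a).length ≤ 4 := by
  obtain ⟨c, g⟩ := a
  fin_cases c
  · change (sub.word (0, g)).length ≤ 4
    rw [word0]; simp
  · change (sub.word (1, g)).length ≤ 4
    rw [word1]; simp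
  · change (sub.word (2, g)).length ≤ 4
    rw [word2]; simp
  · change (sub.word (3, g)).length ≤ 4
    rw [word3]; simp

lemma two_le_word (a : Al) : 2 ≤ (sub.word a).length := by
  obtain ⟨c, g⟩ := a
  fin_cases c
  · change 2 ≤ (sub.word (0, g)).length
    rw [word0]; simp
  · change 2 ≤ (sub.word (1, g)).length
    rw [word1]; simp
  · change 2 ≤ (sub.word (2, g)).length
    rw [word2]; simp
  · change 2 ≤ (sub.word (3, g)).length
    rw [word3]; simp

lemma two_pow_le (m : ℕ) (a : Al) : 2 ^ m ≤ (sub.iter m a).length := by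
  induction m with
  | zero => simp [Substitution.iter_zero]
  | succ m ih =>
    rw [Substitution.iter_succ']
    have := Substitution.length_flatMap_ge 2 sub.word two_le_word (sub.iter m a)
    rw [pow_succ]
    omega

lemma abs_dD (a : Al) : |dD a| ≤ 2 := by
  have h1 := sqrt_two_ge
  have h2 := sqrt_two_le
  unfold dD
  split_ifs
  · norm_num
  · rw [abs_of_nonneg (by linarith)]; linarith

lemma abs_dE (a : Al) : |dE a| ≤ 1 := by
  unfold dE
  split_ifs <;> norm_num

lemma abs_dG (a : Al) : |dG a| ≤ 1 := by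
  unfold dG
  split_ifs <;> norm_num

lemma lang_zero_length {w : List Al} (hw : w ∈ sub.Lang 0) : w.length ≤ 1 := by
  obtain ⟨a, ha⟩ := hw
  have := ha.length_le
  simpa [Substitution.iter_zero] using this

lemma lang_succ {n : ℕ} {w : List Al} (hw : w ∈ sub.Lang (n + 1)) :
    ∃ s v p, v ∈ sub.Lang n ∧ w = s ++ v.flatMap sub.word ++ p ∧ s.length ≤ 4 ∧ p.length ≤ 4 := by
  obtain ⟨a, ha⟩ := hw
  rw [Substitution.iter_succ'] at ha
  obtain ⟨s, v, p, h1, h2, h3, h4⟩ := infix_decomp sub.word 4 word_len_le _ _ ha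
  exact ⟨s, v, p, ⟨a, h1⟩, h2, h3, h4⟩

lemma bound_D (n : ℕ) : ∀ w ∈ sub.Lang n, |S dD w| ≤ 40 := by
  induction n with
  | zero =>
    intro w hw
    have h1 := abs_S_le dD 2 abs_dD w
    have h2 : (w.length : ℝ) ≤ 1 := by exact_mod_cast lang_zero_length hw
    linarith
  | succ n ih =>
    intro w hw
    obtain ⟨s, v, p, hv, rfl, hs, hp⟩ := lang_succ hw
    have h1 := ih v hv
    have h2 := abs_S_le dD 2 abs_dD s
    have h3 := abs_S_le dD 2 abs_dD p
    have h4 : (s.length : ℝ) ≤ 4 := by exact_mod_cast hs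
    have h5 : (p.length : ℝ) ≤ 4 := by exact_mod_cast hp
    rw [S_append, S_append, S_flatMap dD dD _ word_D]
    have h6 := sqrt_two_ge
    have h7 := sqrt_two_le
    rw [abs_le] at h1 h2 h3 ⊢
    constructor <;> nlinarith

lemma bound_E (n : ℕ) (w : List Al) (hw : w ∈ sub.Lang n) : |S dE w| ≤ 8 := by
  rcases n with _ | n
  · have h1 := abs_S_le dE 1 abs_dE w
    have h2 : (w.length : ℝ) ≤ 1 := by exact_mod_cast lang_zero_length hw
    linarith
  · obtain ⟨s, v, p, hv, rfl, hs, hp⟩ := lang_succ hw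
    have h2 := abs_S_le dE 1 abs_dE s
    have h3 := abs_S_le dE 1 abs_dE p
    have h4 : (s.length : ℝ) ≤ 4 := by exact_mod_cast hs
    have h5 : (p.length : ℝ) ≤ 4 := by exact_mod_cast hp
    rw [S_append, S_append, S_flatMap dE dE _ word_E]
    rw [abs_le] at h2 h3 ⊢
    constructor <;> linarith

lemma bound_G (n : ℕ) (w : List Al) (hw : w ∈ sub.Lang n) : |S dG w| ≤ 16 := by
  rcases n with _ | n
  · have h1 := abs_S_le dG 1 abs_dG w
    have h2 : (w.length : ℝ) ≤ 1 := by exact_mod_cast lang_zero_length hw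
    linarith
  · obtain ⟨s, v, p, hv, rfl, hs, hp⟩ := lang_succ hw
    have h1 := bound_E n v hv
    have h2 := abs_S_le dG 1 abs_dG s
    have h3 := abs_S_le dG 1 abs_dG p
    have h4 : (s.length : ℝ) ≤ 4 := by exact_mod_cast hs
    have h5 : (p.length : ℝ) ≤ 4 := by exact_mod_cast hp
    rw [S_append, S_append, S_flatMap dG dE _ word_G]
    rw [abs_le] at h1 h2 h3 ⊢
    constructor <;> linarith

lemma rr_mul_sqrt : rr * ((√2 : ℝ) : ℂ) = 1 := by
  have h' : ((√2 : ℝ) : ℂ) * ((√2 : ℝ) : ℂ) = 2 := by exact_mod_cast sqrt_two_mul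
  rw [rr]; push_cast
  linear_combination (1 / 2) * h'

lemma sum_gamma (γ : Fin 4 → ℂ) (h : γ 0 + γ 1 + rr * (γ 2 + γ 3) = 0) (v : List Al) :
    (v.map (fun b => γ b.1)).sum = (S dE v : ℂ) / 2 * (γ 0 - γ 1) +
      (S dD v : ℂ) * rr / 2 * (γ 2 + γ 3) + (S dG v : ℂ) / 2 * (γ 2 - γ 3) := by
  have hp : ∀ b : Al, γ b.1 = (dE b : ℂ) / 2 * (γ 0 - γ 1) +
      (dD b : ℂ) * rr / 2 * (γ 2 + γ 3) + (dG b : ℂ) / 2 * (γ 2 - γ 3) := by
    rintro ⟨c, g⟩
    have h2 := rr_mul_sqrt
    fin_cases c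
    · simp [dE, dD, dG]; linear_combination (1 / 2) * h
    · simp [dE, dD, dG]; linear_combination (1 / 2) * h
    · simp [dE, dD, dG]; linear_combination (-(1 / 2) * (γ 2 + γ 3)) * h2
    · simp [dE, dD, dG]; linear_combination (-(1 / 2) * (γ 2 + γ 3)) * h2
  induction v with
  | nil => simp [S]
  | cons b v ih =>
    rw [List.map_cons, List.sum_cons, ih, hp b]
    simp only [S, List.map_cons, List.sum_cons]
    push_cast
    ring

/-- the main estimate: the correlations of the words of the language are small -/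
theorem cor_bound (n m : ℕ) : ∃ K : ℝ, ∀ N, ∀ w ∈ sub.Lang N,
    ‖cor fl n w‖ ≤ (n + 1) * (w.length / 2 ^ m) + K := by
  classical
  set M : ℕ := Finset.univ.sup (fun a : Al => (sub.iter m a).length) with hM
  have hM' : ∀ a, (sub.iter m a).length ≤ M := fun a =>
    Finset.le_sup (f := fun a : Al => (sub.iter m a).length) (Finset.mem_univ a)
  set γ : Fin 4 → ℂ := fun c => cor fl n (sub.iter m (c, 0)) with hγ
  have hγ0 : γ 0 + γ 1 + rr * (γ 2 + γ 3) = 0 := sum_cor m n
  have hr : ‖rr‖ ≤ 1 := by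
    rw [rr, Complex.norm_real, Real.norm_eq_abs, abs_of_nonneg (by positivity)]
    have := sqrt_two_le
    linarith
  refine ⟨28 * (‖γ 0‖ + ‖γ 1‖ + ‖γ 2‖ + ‖γ 3‖) + (M + M + 2 * (n + 1)), ?_⟩
  intro N w hw
  obtain ⟨s, v, p, hv, hw', hs, hp⟩ := sub.lang_decomp hM' hw
  have h1 := cor_blocks norm_fl n (sub.iter m) s v p
  rw [← hw'] at h1
  have h2 : (v.map (fun b => cor fl n (sub.iter m b))).sum = (v.map (fun b => γ b.1)).sum := by
    congr 1
    apply List.map_congr_left
    rintro ⟨c, g⟩ _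
    exact cor_iter m n c g
  rw [h2, sum_gamma γ hγ0] at h1
  have h3 : ‖(S dE v : ℂ) / 2 * (γ 0 - γ 1) +
      (S dD v : ℂ) * rr / 2 * (γ 2 + γ 3) + (S dG v : ℂ) / 2 * (γ 2 - γ 3)‖ ≤
      28 * (‖γ 0‖ + ‖γ 1‖ + ‖γ 2‖ + ‖γ 3‖) := by
    have hE := bound_E _ v hv
    have hD := bound_D _ v hv
    have hG := bound_G _ v hv
    have a1 : ‖(S dE v : ℂ) / 2 * (γ 0 - γ 1)‖ ≤ 4 * (‖γ 0‖ + ‖γ 1‖) := by
      rw [norm_mul, norm_div, Complex.norm_real, Real.norm_eq_abs]
      have := norm_sub_le (γ 0) (γ 1)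
      have h2 : ‖(2 : ℂ)‖ = 2 := by simp
      rw [h2]
      apply mul_le_mul _ this (norm_nonneg _) (by norm_num)
      linarith
    have a2 : ‖(S dD v : ℂ) * rr / 2 * (γ 2 + γ 3)‖ ≤ 20 * (‖γ 2‖ + ‖γ 3‖) := by
      rw [norm_mul, norm_div, norm_mul, Complex.norm_real, Real.norm_eq_abs]
      have := norm_add_le (γ 2) (γ 3)
      have h2 : ‖(2 : ℂ)‖ = 2 := by simp
      rw [h2]
      apply mul_le_mul _ this (norm_nonneg _) (by norm_num)
      have : |S dD v| * ‖rr‖ ≤ 40 * 1 := mul_le_mul hD hr (norm_nonneg _) (by norm_num)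
      linarith
    have a3 : ‖(S dG v : ℂ) / 2 * (γ 2 - γ 3)‖ ≤ 8 * (‖γ 2‖ + ‖γ 3‖) := by
      rw [norm_mul, norm_div, Complex.norm_real, Real.norm_eq_abs]
      have := norm_sub_le (γ 2) (γ 3)
      have h2 : ‖(2 : ℂ)‖ = 2 := by simp
      rw [h2]
      apply mul_le_mul _ this (norm_nonneg _) (by norm_num)
      linarith
    have a4 := norm_add_le ((S dE v : ℂ) / 2 * (γ 0 - γ 1) + (S dD v : ℂ) * rr / 2 * (γ 2 + γ 3))
      ((S dG v : ℂ) / 2 * (γ 2 - γ 3))
    have a5 := norm_add_le ((S dE v : ℂ) / 2 * (γ 0 - γ 1)) ((S dD v : ℂ) * rr / 2 * (γ 2 + γ 3))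
    have n0 := norm_nonneg (γ 0)
    have n1 := norm_nonneg (γ 1)
    have n2 := norm_nonneg (γ 2)
    have n3 := norm_nonneg (γ 3)
    linarith
  have h4 : ‖cor fl n w‖ ≤ 28 * (‖γ 0‖ + ‖γ 1‖ + ‖γ 2‖ + ‖γ 3‖) +
      ((n + 1) * v.length + (s.length + p.length + 2 * (n + 1))) := by
    have := norm_sub_norm_le (cor fl n w) ((S dE v : ℂ) / 2 * (γ 0 - γ 1) +
      (S dD v : ℂ) * rr / 2 * (γ 2 + γ 3) + (S dG v : ℂ) / 2 * (γ 2 - γ 3))
    linarith
  have h5 : (v.length : ℝ) ≤ w.length / 2 ^ m := by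
    rw [le_div_iff₀ (by positivity)]
    have h6 := Substitution.length_flatMap_ge (2 ^ m) (sub.iter m) (two_pow_le m) v
    have h7 : 2 ^ m * v.length ≤ w.length := by
      rw [hw', List.length_append, List.length_append]
      omega
    have h8 : ((2 ^ m * v.length : ℕ) : ℝ) ≤ w.length := by exact_mod_cast h7
    push_cast at h8
    linarith
  have h9 : (s.length : ℝ) ≤ M := by exact_mod_cast hs
  have h10 : (p.length : ℝ) ≤ M := by exact_mod_cast hp
  have h11 : ((n : ℝ) + 1) * v.length ≤ (n + 1) * (w.length / 2 ^ m) := by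
    apply mul_le_mul_of_nonneg_left h5 (by positivity)
  linarith

end SubstLeb
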