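import Pool.Agent.TH292.SL.Spec

open MeasureTheory Filter Topology

namespace SubstLeb

/-- Krylov–Bogoliubov -/
theorem exists_invariant {E : Type*} [TopologicalSpace E] [CompactSpace E] [T2Space E]
    [MeasurableSpace E] [BorelSpace E] [HasOuterApproxClosed E] {T : E → E} (hT : Continuous T)
    (x₀ : E) : ∃ μ : Measure E, IsProbabilityMeasure μ ∧ μ.map T = μ := by
  classical
  have hpr : ∀ N : ℕ, IsProbabilityMeasure
      (((N : ENNReal) + 1)⁻¹ • ∑ j ∈ Finset.range (N + 1), Measure.dirac (T^[j] x₀)) := by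
    intro N
    refine ⟨?_⟩
    rw [Measure.smul_apply, Measure.finsetSum_apply]
    simp only [measure_univ, Finset.sum_const, Finset.card_range, nsmul_eq_mul, mul_one, smul_eq_mul]
    push_cast
    apply ENNReal.inv_mul_cancel
    · simp
    · finiteness
  set ν : ℕ → ProbabilityMeasure E := fun N =>
    ⟨((N : ENNReal) + 1)⁻¹ • ∑ j ∈ Finset.range (N + 1), Measure.dirac (T^[j] x₀), hpr N⟩ with hν
  have hint : ∀ (N : ℕ) (g : BoundedContinuousFunction E ℝ), ∫ x, g x ∂(ν N : Measure E) =
      ((N : ℝ) + 1)⁻¹ * ∑ j ∈ Finset.range (N + 1), g (T^[j] x₀) := by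
    intro N g
    have h1 : (ν N : Measure E) =
      ((N : ENNReal) + 1)⁻¹ • ∑ j ∈ Finset.range (N + 1), Measure.dirac (T^[j] x₀) := rfl
    rw [h1, integral_smul_measure, integral_finsetSum_measure]
    · simp only [integral_dirac]
      rw [smul_eq_mul]
      congr 1
      rw [ENNReal.toReal_inv]
      have : ((N : ENNReal) + 1).toReal = (N : ℝ) + 1 := by
        rw [ENNReal.toReal_add (by finiteness) (by finiteness)]
        simp
      rw [this]
    · intro j _
      exact g.integrable _
  obtain ⟨μ, -, hμ⟩ := (isCompact_univ (X := ProbabilityMeasure E)).ultrafilter_le_nhds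
    ((hyperfilter ℕ : Ultrafilter ℕ).map ν) (by simp)
  have hlim : Tendsto ν (hyperfilter ℕ : Filter ℕ) (𝓝 μ) := hμ
  rw [ProbabilityMeasure.tendsto_iff_forall_integral_tendsto] at hlim
  refine ⟨(μ : Measure E), inferInstance, ?_⟩
  haveI : IsProbabilityMeasure ((μ : Measure E).map T) :=
    Measure.isProbabilityMeasure_map hT.measurable.aemeasurable
  apply ext_of_forall_integral_eq_of_IsFiniteMeasure
  intro g
  rw [integral_map hT.measurable.aemeasurable g.continuous.measurable.aestronglyMeasurable]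
  set gT : BoundedContinuousFunction E ℝ := g.compContinuous ⟨T, hT⟩ with hgT
  have h1 := hlim g
  have h2 := hlim gT
  have h3 : Tendsto (fun N : ℕ => ∫ x, gT x ∂(ν N : Measure E) - ∫ x, g x ∂(ν N : Measure E))
      (hyperfilter ℕ : Filter ℕ) (𝓝 0) := by
    have h4 : Tendsto (fun N : ℕ => (2 * ‖g‖) * ((N : ℝ) + 1)⁻¹) atTop (𝓝 0) := by
      have := tendsto_one_div_add_atTop_nhds_zero_nat (𝕜 := ℝ)
      have := this.const_mul (2 * ‖g‖)
      simpa using this
    have h5 : Tendsto (fun N : ℕ => (2 * ‖g‖) * ((N : ℝ) + 1)⁻¹) (hyperfilter ℕ : Filter ℕ)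
        (𝓝 0) := h4.mono_left (by rw [← Nat.cofinite_eq_atTop]; exact hyperfilter_le_cofinite)
    apply squeeze_zero_norm _ h5
    intro N
    rw [hint, hint]
    have h6 : ∑ j ∈ Finset.range (N + 1), gT (T^[j] x₀) =
        ∑ j ∈ Finset.range (N + 1), g (T^[j + 1] x₀) := by
      apply Finset.sum_congr rfl
      intro j _
      rw [Function.iterate_succ_apply']
      rfl
    rw [h6, ← mul_sub, ← Finset.sum_sub_distrib,
      Finset.sum_range_sub (fun j => g (T^[j] x₀)), norm_mul, mul_comm]
    apply mul_le_mul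
    · have := norm_sub_le (g (T^[N + 1] x₀)) (g (T^[0] x₀))
      have h7 := g.norm_coe_le_norm (T^[N + 1] x₀)
      have h8 := g.norm_coe_le_norm (T^[0] x₀)
      linarith
    · rw [norm_inv, Real.norm_eq_abs, abs_of_nonneg (by positivity)]
    · exact norm_nonneg _
    · positivity
  have h4 := tendsto_nhds_unique (h2.sub h1) h3
  have h5 : ∫ x, gT x ∂(μ : Measure E) = ∫ x, g x ∂(μ : Measure E) := by linarith
  exact h5

section

variable {A : Type}

instance : T2Space (BiSeq A) := by
  letI : TopologicalSpace A := ⊥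
  haveI : DiscreteTopology A := ⟨rfl⟩
  exact inferInstanceAs (T2Space (ℤ → A))

instance [Finite A] : CompactSpace (BiSeq A) := by
  letI : TopologicalSpace A := ⊥
  haveI : DiscreteTopology A := ⟨rfl⟩
  exact inferInstanceAs (CompactSpace (ℤ → A))

instance [Finite A] : SecondCountableTopology (BiSeq A) := by
  letI : TopologicalSpace A := ⊥
  haveI : DiscreteTopology A := ⟨rfl⟩
  haveI : Countable A := Finite.to_countable
  exact inferInstanceAs (SecondCountableTopology (ℤ → A))

instance [Finite A] : TopologicalSpace.MetrizableSpace (BiSeq A) :=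
  TopologicalSpace.metrizableSpace_of_t3_secondCountable _

lemma window_eq_ofFn (x : BiSeq A) (k : ℤ) (l : ℕ) :
    window x k l = List.ofFn (fun j : Fin l => x (k + (j : ℕ))) := by
  apply List.ext_getElem?
  intro i
  unfold window
  rw [List.getElem?_map, List.getElem?_ofFn]
  by_cases h : i < l
  · rw [List.getElem?_range h]; simp [h]
  · rw [List.getElem?_eq_none (by simpa using h)]; simp [h]

lemma isClosed_space [Finite A] (σ : Substitution A) : IsClosed σ.space := by
  have h : σ.space = ⋂ (k : ℤ), ⋂ (l : ℕ),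
      (fun (x : BiSeq A) (j : Fin l) => x (k + (j : ℕ))) ⁻¹'
        {u | ∃ n a, List.ofFn u <:+: σ.iter n a} := by
    ext x
    simp only [Substitution.space, Set.mem_ofPred_eq, Set.mem_iInter, Set.mem_preimage,
      window_eq_ofFn]
  rw [h]
  apply isClosed_iInter
  intro k
  apply isClosed_iInter
  intro l
  letI : TopologicalSpace A := ⊥
  haveI : DiscreteTopology A := ⟨rfl⟩
  apply IsClosed.preimage
  · exact continuous_pi fun j => continuous_apply (A := fun _ : ℤ => A) (k + ((j : ℕ) : ℤ))
  · exact isClosed_discrete _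

lemma range_map_infix [Inhabited A] (w : List A) (s l : ℕ) (h : s + l ≤ w.length) (y : ℕ → A)
    (hy : ∀ j < l, w[s + j]? = some (y j)) : (List.range l).map y <:+: w := by
  have e : (List.range l).map y = (w.drop s).take l := by
    apply List.ext_getElem?
    intro i
    rw [List.getElem?_map, List.getElem?_take, List.getElem?_drop]
    by_cases hi : i < l
    · rw [List.getElem?_range hi, if_pos hi, hy i hi]; rfl
    · rw [if_neg hi, List.getElem?_eq_none (by simpa using hi)]; rfl
  rw [e]
  exact (List.take_prefix _ _).isInfix.trans (List.drop_suffix _ _).isInfix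

theorem space_nonempty [Finite A] (σ : Substitution A) (a₀ : A)
    (hlen : Tendsto (fun n => (σ.iter n a₀).length) atTop atTop) : σ.space.Nonempty := by
  classical
  haveI : Inhabited A := ⟨a₀⟩
  set X : ℕ → BiSeq A := fun k j => (σ.iter k a₀).getD (j + ((σ.iter k a₀).length / 2 : ℕ)).toNat a₀
    with hX
  obtain ⟨x, -, hx⟩ := (isCompact_univ (X := BiSeq A)).ultrafilter_le_nhds
    ((hyperfilter ℕ : Ultrafilter ℕ).map X) (by simp)
  have hlim : Tendsto X (hyperfilter ℕ : Filter ℕ) (𝓝 x) := hx
  have hcoord : ∀ j : ℤ, ∀ᶠ k in (hyperfilter ℕ : Filter ℕ), X k j = x j := by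
    intro j
    letI : TopologicalSpace A := ⊥
    haveI : DiscreteTopology A := ⟨rfl⟩
    have h1 : Tendsto (fun k => X k j) (hyperfilter ℕ : Filter ℕ) (𝓝 (x j)) :=
      ((continuous_eval j (fun a => a)).tendsto x).comp hlim
    rw [nhds_discrete, tendsto_pure] at h1
    exact h1
  have hle : (hyperfilter ℕ : Filter ℕ) ≤ atTop := by
    rw [← Nat.cofinite_eq_atTop]; exact hyperfilter_le_cofinite
  refine ⟨x, fun k l => ?_⟩
  have h1 : ∀ᶠ n in (hyperfilter ℕ : Filter ℕ), ∀ j ∈ Finset.range l,
      X n (k + (j : ℤ)) = x (k + (j : ℤ)) := by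
    rw [Filter.eventually_all_finset]
    intro j _
    exact hcoord _
  have h2 : ∀ᶠ n in (hyperfilter ℕ : Filter ℕ), 2 * (k.natAbs + l + 1) ≤ (σ.iter n a₀).length :=
    hle (hlen.eventually_ge_atTop _)
  obtain ⟨n, h3, h4⟩ := (h1.and h2).exists
  refine ⟨n, a₀, ?_⟩
  set w := σ.iter n a₀ with hw
  have hk1 : 0 ≤ k + ((w.length / 2 : ℕ) : ℤ) := by omega
  apply range_map_infix w (k + ((w.length / 2 : ℕ) : ℤ)).toNat l (by omega)
  intro j hj
  rw [← h3 j (Finset.mem_range.2 hj)]
  simp only [hX]
  have e : (k + (j : ℤ) + ((w.length / 2 : ℕ) : ℤ)).toNat =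
      (k + ((w.length / 2 : ℕ) : ℤ)).toNat + j := by omega
  rw [← hw, e, List.getD_eq_getElem?_getD]
  rw [List.getElem?_eq_getElem (by omega)]
  rfl

theorem exists_isInvariantMeasure [Finite A] (σ : Substitution A) (hne : σ.space.Nonempty) :
    ∃ μ, σ.IsInvariantMeasure μ := by
  haveI : CompactSpace σ.space := isCompact_iff_compactSpace.1 (isClosed_space σ).isCompact
  obtain ⟨x₀, hx₀⟩ := hne
  set T : σ.space → σ.space := fun x => ⟨shift 1 x.1, shift_mem_space σ 1 x.2⟩ with hT
  have hTc : Continuous T := ((continuous_shift 1).comp continuous_subtype_val).subtype_mk _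
  obtain ⟨μ, hμ1, hμ2⟩ := exists_invariant hTc ⟨x₀, hx₀⟩
  have hm : Measurable (Subtype.val : σ.space → BiSeq A) := measurable_subtype_coe
  refine ⟨μ.map Subtype.val, ⟨Measure.isProbabilityMeasure_map hm.aemeasurable, ?_, ?_⟩⟩
  · rw [Measure.map_apply hm (isClosed_space σ).measurableSet.compl]
    have : (Subtype.val : σ.space → BiSeq A) ⁻¹' σ.spaceᶜ = ∅ := by
      ext y
      simp
    rw [this, measure_empty]
  · rw [Measure.map_map (measurable_shift 1) hm]
    have : shift 1 ∘ (Subtype.val : σ.space → BiSeq A) = Subtype.val ∘ T := rfl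
    rw [this, ← Measure.map_map hm hTc.measurable, hμ2]

end

end SubstLeb
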