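import Pool.Agent.TH292.SL.Corr

open MeasureTheory LaurentPolynomial

namespace SubstLeb

variable {A : Type}

lemma coeff_T_mul (k n : ℤ) (p : ℂ[T;T⁻¹]) : (T k * p).coeff n = p.coeff (n - k) := by
  rw [show (T k : ℂ[T;T⁻¹]) = AddMonoidAlgebra.single k 1 from rfl,
    AddMonoidAlgebra.coeff_single_mul_apply, one_mul]
  congr 1
  ring

lemma coeff_C_mul (r : ℂ) (n : ℤ) (p : ℂ[T;T⁻¹]) : (C r * p).coeff n = r * p.coeff n := by
  rw [show (C r : ℂ[T;T⁻¹]) = AddMonoidAlgebra.single 0 r from rfl,
    AddMonoidAlgebra.coeff_single_mul_apply]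
  congr 2
  ring

lemma coeff_add' (n : ℤ) (p q : ℂ[T;T⁻¹]) : (p + q).coeff n = p.coeff n + q.coeff n := rfl

/-- the polynomial of a word -/
noncomputable def Fp (f : A → ℂ) : List A → ℂ[T;T⁻¹]
  | [] => 0
  | a :: w => C (f a) + T 1 * Fp f w

/-- its adjoint -/
noncomputable def Fs (f : A → ℂ) : List A → ℂ[T;T⁻¹]
  | [] => 0
  | a :: w => C ((starRingEnd ℂ) (f a)) + T (-1) * Fs f w

variable (f : A → ℂ)

lemma Fp_append (u v : List A) : Fp f (u ++ v) = Fp f u + T u.length * Fp f v := by
  induction u with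
  | nil => simp [Fp]
  | cons a u ih =>
    rw [List.cons_append, Fp, Fp, ih, List.length_cons]
    push_cast
    rw [T_add]
    ring

lemma Fs_append (u v : List A) : Fs f (u ++ v) = Fs f u + T (-u.length) * Fs f v := by
  induction u with
  | nil => simp [Fs]
  | cons a u ih =>
    rw [List.cons_append, Fs, Fs, ih, List.length_cons]
    push_cast
    rw [neg_add, T_add]
    ring

lemma Fp_coeff (w : List A) (n : ℕ) : (Fp f w).coeff (n : ℤ) = (w.map f).getD n 0 := by
  induction w generalizing n with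
  | nil => simp [Fp]
  | cons a w ih =>
    rw [Fp, coeff_add', C_apply, coeff_T_mul]
    rcases n with _ | n
    · simp only [Nat.cast_zero, if_true, zero_sub, List.map_cons, List.getD_cons_zero]
      have : (Fp f w).coeff (-1) = 0 := by
        clear ih
        have h : ∀ (w : List A) (k : ℤ), k < 0 → (Fp f w).coeff k = 0 := by
          intro w
          induction w with
          | nil => intro k _; simp [Fp]
          | cons b w ih =>
            intro k hk
            rw [Fp, coeff_add', C_apply, coeff_T_mul, if_neg hk.ne, ih _ (by omega), add_zero]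
        exact h w _ (by norm_num)
      rw [this, add_zero]
    · rw [if_neg (by omega), zero_add]
      have e : ((n + 1 : ℕ) : ℤ) - 1 = n := by push_cast; ring
      rw [e, ih, List.map_cons, List.getD_cons_succ]

lemma Fs_coeff (w : List A) (k : ℤ) (hk : 0 < k) : (Fs f w).coeff k = 0 := by
  induction w generalizing k with
  | nil => simp [Fs]
  | cons a w ih =>
    rw [Fs, coeff_add', C_apply, coeff_T_mul, if_neg hk.ne', ih _ (by omega), add_zero]

/-- the coefficients of `F(w) F*(w)` are the correlations -/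
lemma coeff_mul_eq (w : List A) (n : ℕ) :
    (Fp f w * Fs f w).coeff ((n : ℤ) + 1) = cor f n w := by
  induction w with
  | nil => simp [Fp, cor]
  | cons a w ih =>
    have e : Fp f (a :: w) * Fs f (a :: w) = C (f a * (starRingEnd ℂ) (f a)) +
        C (f a) * (T (-1) * Fs f w) + C ((starRingEnd ℂ) (f a)) * (T 1 * Fp f w) +
        Fp f w * Fs f w := by
      have h : (T 1 * T (-1) : ℂ[T;T⁻¹]) = 1 := by
        rw [← T_add]; simp
      rw [Fp, Fs, map_mul]
      linear_combination (Fp f w * Fs f w) * h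
    rw [e, coeff_add', coeff_add', coeff_add', C_apply, coeff_C_mul, coeff_C_mul, coeff_T_mul,
      coeff_T_mul, if_neg (by omega), Fs_coeff f w _ (by omega), ih, add_sub_cancel_right, Fp_coeff,
      cor]
    ring

variable {f}

lemma Fp_map_mul (τ : A → A) (c : ℂ) (h : ∀ a, f (τ a) = c * f a) (w : List A) :
    Fp f (w.map τ) = C c * Fp f w := by
  induction w with
  | nil => simp [Fp]
  | cons a w ih =>
    rw [List.map_cons, Fp, Fp, ih, h, map_mul]
    ring

lemma Fs_map_mul (τ : A → A) (c : ℂ) (h : ∀ a, f (τ a) = c * f a) (w : List A) :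
    Fs f (w.map τ) = C ((starRingEnd ℂ) c) * Fs f w := by
  induction w with
  | nil => simp [Fs]
  | cons a w ih =>
    rw [List.map_cons, Fs, Fs, ih, h, map_mul, map_mul]
    ring

lemma cor_map_mul (τ : A → A) (c : ℂ) (hc : ‖c‖ = 1) (h : ∀ a, f (τ a) = c * f a) (n : ℕ)
    (w : List A) : cor f n (w.map τ) = cor f n w := by
  rw [← coeff_mul_eq, ← coeff_mul_eq, Fp_map_mul τ c h, Fs_map_mul τ c h]
  have : C c * Fp f w * (C ((starRingEnd ℂ) c) * Fs f w) = Fp f w * Fs f w := by
    have h1 : (C c * C ((starRingEnd ℂ) c) : ℂ[T;T⁻¹]) = 1 := by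
      rw [← map_mul, Complex.mul_conj, Complex.normSq_eq_norm_sq, hc]; simp
    linear_combination (Fp f w * Fs f w) * h1
  rw [this]

/-- the algebraic identity behind the flatness -/
lemma key_identity {R : Type*} [CommRing R] (Z r a as b bs c cs d ds : R) (hZ : Z ^ 4 = -1)
    (hr1 : r * (1 + Z ^ 2) = Z) (hr2 : r * (1 - Z ^ 2) = -Z ^ 3) (h2 : 2 * r ^ 2 = 1) :
    (a + b + c) * (as + bs + cs) + (b - c + d) * (bs - cs + ds) +
      r * ((a - Z * b + Z ^ 3 * c + Z ^ 2 * d) * (as + Z ^ 3 * bs - Z * cs - Z ^ 2 * ds) +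
        (Z ^ 2 * a - Z * b - Z ^ 3 * c + d) * (-Z ^ 2 * as + Z ^ 3 * bs + Z * cs + ds)) =
    (2 + 2 * r) * (b * bs + c * cs + r * (a * as + d * ds)) := by
  linear_combination (Z ^ 3 * (a * bs + c * as - c * ds + d * bs)) * hr1 +
    (-Z * (a * cs + b * as + b * ds - d * cs)) * hr2 +
    (-r * (a * as + d * ds) - 2 * r * (b * bs + c * cs) + a * bs + a * cs + b * as + b * ds +
      c * as - c * ds + d * bs - d * cs) * hZ - (a * as + d * ds) * h2

end SubstLeb
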