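import Pool.Agent.TH292.SL.Uniq

open MeasureTheory Filter Topology

namespace SubstLeb

variable {A : Type}

/-- cylinders -/
def cyl (k : ℤ) (W : List A) : Set (BiSeq A) := {x | window x k W.length = W}

lemma isOpen_cyl [Finite A] (k : ℤ) (W : List A) : IsOpen (cyl k W) := by
  have h : cyl k W = (fun (x : BiSeq A) (j : Fin W.length) => x (k + (j : ℕ))) ⁻¹'
      {u | List.ofFn u = W} := by
    ext x
    simp only [cyl, Set.mem_ofPred_eq, Set.mem_preimage, window_eq_ofFn]
  rw [h]
  letI : TopologicalSpace A := ⊥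
  haveI : DiscreteTopology A := ⟨rfl⟩
  apply IsOpen.preimage
  · exact continuous_pi fun j => continuous_apply (A := fun _ : ℤ => A) (k + ((j : ℕ) : ℤ))
  · exact isOpen_discrete _

lemma measurableSet_cyl [Finite A] (k : ℤ) (W : List A) : MeasurableSet (cyl k W) :=
  (isOpen_cyl k W).measurableSet

lemma cyl_shift (k : ℤ) (W : List A) : cyl k W = shift k ⁻¹' cyl 0 W := by
  ext x
  simp only [cyl, Set.mem_ofPred_eq, Set.mem_preimage, window_shift, zero_add]

lemma cyl_bounds [Fintype A] [Nonempty A] {σ : Substitution A} {W : List A} {lo K ε : ℝ}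
    (hb : ∀ n, ∀ u ∈ σ.Lang n, lo * u.length - K ≤ occ W u ∧
      occ W u ≤ (lo + 2 * ε) * u.length + K) {μ : Measure (BiSeq A)}
    (hμ : σ.IsInvariantMeasure μ) : lo ≤ μ.real (cyl 0 W) ∧ μ.real (cyl 0 W) ≤ lo + 2 * ε := by
  haveI := hμ.prob
  set h : BiSeq A → ℝ := fun x => ind (window x 0 W.length = W) with hh
  have hind : h = (cyl 0 W).indicator 1 := by
    funext x
    by_cases hx : x ∈ cyl 0 W
    · rw [Set.indicator_of_mem hx, hh]
      exact ind_of hx
    · rw [Set.indicator_of_notMem hx, hh]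
      exact ind_not hx
  have hmeas : Measurable h := by
    rw [hind]
    exact measurable_one.indicator (measurableSet_cyl 0 W)
  have hint : ∀ j : ℤ, Integrable (fun x => h (shift j x)) μ := by
    intro j
    apply Integrable.of_bound (C := 1)
    · exact (hmeas.comp (measurable_shift j)).aestronglyMeasurable
    · apply Filter.Eventually.of_forall
      intro x
      rw [Real.norm_eq_abs, abs_of_nonneg (ind_nonneg _)]
      exact ind_le_one _
  have h0 : ∫ x, h x ∂μ = μ.real (cyl 0 W) := by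
    rw [hind, integral_indicator_one (measurableSet_cyl 0 W)]
  have h1 : ∀ j : ℤ, ∫ x, h (shift j x) ∂μ = μ.real (cyl 0 W) := by
    intro j
    have h2 := map_shift hμ j
    rw [← h0]
    conv_rhs => rw [← h2.map_eq]
    rw [integral_map h2.measurable.aemeasurable hmeas.aestronglyMeasurable]
  have h3 : ∀ N : ℕ, (N : ℝ) * μ.real (cyl 0 W) =
      ∫ x, ∑ j ∈ Finset.range N, h (shift (j : ℤ) x) ∂μ := by
    intro N
    rw [integral_finsetSum (Finset.range N) (f := fun (j : ℕ) x => h (shift (j : ℤ) x))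
      (fun j _ => hint j)]
    simp [h1]
  have hae : ∀ᵐ x ∂μ, x ∈ σ.space := by
    rw [ae_iff]
    exact hμ.supp
  have hsum : ∀ (N : ℕ), ∀ x ∈ σ.space, lo * N - K ≤ ∑ j ∈ Finset.range N, h (shift (j : ℤ) x) ∧
      ∑ j ∈ Finset.range N, h (shift (j : ℤ) x) ≤ (lo + 2 * ε) * N + (K + W.length) := by
    intro N x hx
    obtain ⟨n, a, hna⟩ := hx 0 N
    have h4 := hb n _ ⟨a, hna⟩
    have h5 := occ_window W x 0 N
    rw [window_length] at h4
    have h6 : ∑ j ∈ Finset.range N, h (shift (j : ℤ) x) =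
        ∑ j ∈ Finset.range N, ind (window x (0 + j) W.length = W) := by
      apply Finset.sum_congr rfl
      intro j _
      simp only [hh, window_shift]
    rw [h6]
    have h7 := min_le_right (N : ℝ) W.length
    constructor
    · linarith [h4.1, h5.1]
    · linarith [h4.2, h5.2]
  have hi : ∀ N : ℕ, Integrable (fun x => ∑ j ∈ Finset.range N, h (shift (j : ℤ) x)) μ := by
    intro N
    exact integrable_finsetSum _ (fun j _ => hint j)
  have hlow : ∀ N : ℕ, lo * N - K ≤ N * μ.real (cyl 0 W) := by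
    intro N
    rw [h3]
    have : ∫ x, (lo * N - K) ∂μ ≤ ∫ x, ∑ j ∈ Finset.range N, h (shift (j : ℤ) x) ∂μ := by
      apply integral_mono_ae (integrable_const _) (hi N)
      filter_upwards [hae] with x hx using (hsum N x hx).1
    simpa using this
  have hupp : ∀ N : ℕ, N * μ.real (cyl 0 W) ≤ (lo + 2 * ε) * N + (K + W.length) := by
    intro N
    rw [h3]
    have : ∫ x, ∑ j ∈ Finset.range N, h (shift (j : ℤ) x) ∂μ ≤
        ∫ x, ((lo + 2 * ε) * N + (K + W.length)) ∂μ := by
      apply integral_mono_ae (hi N) (integrable_const _)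
      filter_upwards [hae] with x hx using (hsum N x hx).2
    simpa using this
  constructor
  · by_contra hcon
    push Not at hcon
    obtain ⟨N, hN⟩ := exists_nat_gt (K / (lo - μ.real (cyl 0 W)))
    have := hlow N
    rw [div_lt_iff₀ (by linarith)] at hN
    linarith
  · by_contra hcon
    push Not at hcon
    obtain ⟨N, hN⟩ := exists_nat_gt ((K + W.length) / (μ.real (cyl 0 W) - (lo + 2 * ε)))
    have := hupp N
    rw [div_lt_iff₀ (by linarith)] at hN
    linarith

lemma cyl_eq [Fintype A] [Nonempty A] {σ : Substitution A} {p : ℕ} (hp : ∀ i j, i ∈ σ.iter p j)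
    (hlen : ∀ a, Tendsto (fun n => (σ.iter n a).length) atTop atTop)
    {μ ν : Measure (BiSeq A)} (hμ : σ.IsInvariantMeasure μ) (hν : σ.IsInvariantMeasure ν)
    (k : ℤ) (W : List A) : μ (cyl k W) = ν (cyl k W) := by
  haveI := hμ.prob
  haveI := hν.prob
  have h1 : μ (cyl k W) = μ (cyl 0 W) := by
    rw [cyl_shift, (map_shift hμ k).measure_preimage (measurableSet_cyl 0 W).nullMeasurableSet]
  have h2 : ν (cyl k W) = ν (cyl 0 W) := by
    rw [cyl_shift, (map_shift hν k).measure_preimage (measurableSet_cyl 0 W).nullMeasurableSet]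
  rw [h1, h2]
  have h3 : μ.real (cyl 0 W) = ν.real (cyl 0 W) := by
    apply eq_of_abs_sub_le_all
    intro ε hε
    obtain ⟨lo, K, hb⟩ := lang_bound hp hlen W (show 0 < ε / 2 by positivity)
    have h4 := cyl_bounds hb hμ
    have h5 := cyl_bounds hb hν
    rw [abs_le]
    constructor <;> linarith [h4.1, h4.2, h5.1, h5.2]
  unfold Measure.real at h3
  rwa [ENNReal.toReal_eq_toReal_iff' (by finiteness) (by finiteness)] at h3

/-- the centered cylinders -/
def cyls (A : Type) : Set (Set (BiSeq A)) :=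
  {S | ∃ (n : ℕ) (y : BiSeq A), S = {x | ∀ i : ℤ, |i| ≤ n → x i = y i}}

lemma mem_cyls_eq_cyl (n : ℕ) (y : BiSeq A) :
    {x : BiSeq A | ∀ i : ℤ, |i| ≤ n → x i = y i} = cyl (-n) (window y (-n) (2 * n + 1)) := by
  ext x
  simp only [cyl, Set.mem_ofPred_eq, window_length]
  constructor
  · intro h
    unfold window
    apply List.map_congr_left
    intro j hj
    rw [List.mem_range] at hj
    apply h
    rw [abs_le]
    constructor <;> omega
  · intro h i hi
    rw [abs_le] at hi
    obtain ⟨j, hj⟩ : ∃ j : ℕ, i = -n + (j : ℤ) := ⟨(i + n).toNat, by omega⟩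
    have h1 : (window x (-n) (2 * n + 1))[j]? = (window y (-n) (2 * n + 1))[j]? := by rw [h]
    rw [window_getElem? _ _ _ (by omega), window_getElem? _ _ _ (by omega)] at h1
    rw [hj]
    exact Option.some_injective _ h1

lemma isPiSystem_cyls : IsPiSystem (cyls A) := by
  rintro S ⟨n, y, rfl⟩ S' ⟨m, z, rfl⟩ ⟨w, hw1, hw2⟩
  simp only [Set.mem_ofPred_eq] at hw1 hw2
  refine ⟨max n m, w, ?_⟩
  ext x
  simp only [Set.mem_inter_iff, Set.mem_ofPred_eq]
  constructor
  · rintro ⟨h1, h2⟩ i hi
    push_cast at hi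
    rcases le_max_iff.1 hi with h | h
    · rw [h1 i h, hw1 i h]
    · rw [h2 i h, hw2 i h]
  · intro h
    constructor
    · intro i hi
      rw [h i (by push_cast; exact le_max_of_le_left hi), hw1 i hi]
    · intro i hi
      rw [h i (by push_cast; exact le_max_of_le_right hi), hw2 i hi]

lemma isBasis_cyls [Finite A] : TopologicalSpace.IsTopologicalBasis (cyls A) := by
  apply TopologicalSpace.isTopologicalBasis_of_isOpen_of_nhds
  · rintro S ⟨n, y, rfl⟩
    rw [mem_cyls_eq_cyl]
    exact isOpen_cyl _ _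
  · intro x O hx hO
    letI : TopologicalSpace A := ⊥
    haveI : DiscreteTopology A := ⟨rfl⟩
    have h1 : ∃ (I : Finset ℤ) (u : ℤ → Set A), (∀ a ∈ I, IsOpen (u a) ∧ x a ∈ u a) ∧
        (I : Set ℤ).pi u ⊆ O := isOpen_pi_iff.1 hO x hx
    obtain ⟨I, u, h2, h3⟩ := h1
    refine ⟨{z | ∀ i : ℤ, |i| ≤ (I.sup Int.natAbs : ℕ) → z i = x i}, ⟨_, x, rfl⟩, ?_, ?_⟩
    · intro i _
      rfl
    · intro z hz
      apply h3
      intro i hi
      have h4 : i.natAbs ≤ I.sup Int.natAbs := Finset.le_sup (f := Int.natAbs) hi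
      have h5 : |i| ≤ ((I.sup Int.natAbs : ℕ) : ℤ) := by
        rw [Int.abs_eq_natAbs]
        exact_mod_cast h4
      have h6 : z i = x i := hz i h5
      rw [h6]
      exact (h2 i hi).2

/-- unique ergodicity -/
theorem invariant_unique [Fintype A] [Nonempty A] {σ : Substitution A} {p : ℕ}
    (hp : ∀ i j, i ∈ σ.iter p j)
    (hlen : ∀ a, Tendsto (fun n => (σ.iter n a).length) atTop atTop)
    {μ ν : Measure (BiSeq A)} (hμ : σ.IsInvariantMeasure μ) (hν : σ.IsInvariantMeasure ν) :
    μ = ν := by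
  haveI := hμ.prob
  haveI := hν.prob
  apply ext_of_generate_finite (cyls A) _ isPiSystem_cyls
  · rintro S ⟨n, y, rfl⟩
    rw [mem_cyls_eq_cyl]
    exact cyl_eq hp hlen hμ hν _ _
  · simp
  · exact (isBasis_cyls (A := A)).borel_eq_generateFrom

end SubstLeb
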