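import Pool.Agent.TH292.SL.PF
import Pool.Agent.TH292.SL.Uniq2

open MeasureTheory Filter Topology

namespace SubstLeb

lemma tendsto_length (a : Al) : Tendsto (fun n => (sub.iter n a).length) atTop atTop :=
  tendsto_atTop_mono (fun n => two_pow_le n a) (tendsto_pow_atTop_atTop_of_one_lt one_lt_two)

lemma mem_iter_five' (i j : Al) : i ∈ sub.iter 5 j := by
  obtain ⟨c, g⟩ := j
  rw [iter_eq, List.mem_map]
  exact ⟨tr (-g) i, mem_iter_five c _, by rw [tr_tr, add_neg_cancel, tr_zero]⟩

lemma sub_space_nonempty : sub.space.Nonempty := space_nonempty sub (0, 0) (tendsto_length _)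

theorem main : sub.IsPrimitive ∧ sub.space.Infinite ∧
    (∃ θ : ℝ, IsPerronEigenvalue sub.matrix θ ∧ θ = 2 + √2 ∧ ∀ n : ℤ, θ ≠ n) ∧
    ∃ μ : Measure (BiSeq Al), sub.IsInvariantMeasure μ ∧
      (∀ ν : Measure (BiSeq Al), sub.IsInvariantMeasure ν → ν = μ) ∧
      HasLebesgueComponent μ ∧
      ∃ f : BiSeq Al → ℂ, MemLp f 2 μ ∧
        IsSpectralMeasure μ f (volume : Measure UnitAddCircle) := by
  obtain ⟨μ, hμ⟩ := exists_isInvariantMeasure sub sub_space_nonempty
  haveI := hμ.prob
  refine ⟨sub_primitive, space_infinite sub_space_nonempty, ⟨2 + √2, sub_perron, rfl, irr⟩,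
    μ, hμ, fun ν hν => invariant_unique mem_iter_five' tendsto_length hν hμ,
    hasLebesgueComponent hμ, ff, ?_, isSpectralMeasure_volume hμ⟩
  apply MemLp.of_bound (C := 1) continuous_ff.measurable.aestronglyMeasurable
  exact Filter.Eventually.of_forall fun x => (norm_ff x).le

end SubstLeb
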