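import Pool.Agent.TH292.SL.Spec

open MeasureTheory

namespace SubstLeb

namespace Substitution

variable {A : Type} [Fintype A] [DecidableEq A] (σ : Substitution A)

lemma count_flatMap_eq (φ : A → List A) (i : A) (w : List A) :
    (w.flatMap φ).count i = ∑ l, (φ l).count i * w.count l := by
  induction w with
  | nil => simp
  | cons a w ih =>
    rw [List.flatMap_cons, List.count_append, ih]
    have : ∀ l, (φ l).count i * (a :: w).count l =
        (φ l).count i * w.count l + (if l = a then (φ l).count i else 0) := by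
      intro l
      rw [List.count_cons]
      by_cases h : l = a
      · subst h; simp; ring
      · have h' : ¬ (a = l) := fun h' => h h'.symm
        simp [h, h']
    simp only [this, Finset.sum_add_distrib, Finset.sum_ite_eq', Finset.mem_univ, if_true]
    ring

lemma matrix_pow (k : ℕ) (i j : A) : (σ.matrix ^ k) i j = (σ.iter k j).count i := by
  induction k generalizing i j with
  | zero =>
    rw [pow_zero, iter_zero, Matrix.one_apply, List.count_singleton]
    by_cases h : i = j
    · simp [h]
    · have h' : ¬ (j = i) := fun h' => h h'.symm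
      simp [h, h']
  | succ k ih =>
    rw [pow_succ, Matrix.mul_apply, iter_succ, count_flatMap_eq]
    apply Finset.sum_congr rfl
    intro l _
    rw [ih]
    rfl

lemma matrix_pow_pos {k : ℕ} {i j : A} (h : i ∈ σ.iter k j) : 0 < (σ.matrix ^ k) i j := by
  rw [matrix_pow]
  exact List.count_pos_iff.2 h

lemma sum_count (l : A → ℝ) (w : List A) : ∑ i, l i * (w.count i : ℝ) = (w.map l).sum := by
  induction w with
  | nil => simp
  | cons a w ih =>
    have : ∀ i, l i * ((a :: w).count i : ℝ) = l i * (w.count i : ℝ) + (if i = a then l i else 0) := by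
      intro i
      rw [List.count_cons]
      by_cases h : i = a
      · subst h; simp; ring
      · have h' : ¬ (a = i) := fun h' => h h'.symm
        simp [h, h']
    simp only [this, Finset.sum_add_distrib, Finset.sum_ite_eq', Finset.mem_univ, if_true, ih,
      List.map_cons, List.sum_cons]
    ring

/-- a positive left eigenvector bounds all the eigenvalues -/
lemma norm_le_of_left {l : A → ℝ} (hl : ∀ a, 0 < l a) {θ : ℝ}
    (h : ∀ a, ((σ.word a).map l).sum = θ * l a) (z : ℂ) (v : A → ℂ) (hv : v ≠ 0)
    (hz : (σ.matrix.map (fun n : ℕ => (n : ℂ))).mulVec v = z • v) : ‖z‖ ≤ θ := by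
  have h1 : ∀ i, ‖z‖ * ‖v i‖ ≤ ∑ j, (σ.matrix i j : ℝ) * ‖v j‖ := by
    intro i
    have h2 := congrFun hz i
    simp only [Matrix.mulVec, dotProduct, Matrix.map_apply, Pi.smul_apply, smul_eq_mul] at h2
    rw [← norm_mul, ← h2]
    refine (norm_sum_le _ _).trans (le_of_eq ?_)
    apply Finset.sum_congr rfl
    intro j _
    rw [norm_mul, Complex.norm_natCast]
  have h3 : ‖z‖ * ∑ i, l i * ‖v i‖ ≤ θ * ∑ i, l i * ‖v i‖ := by
    calc ‖z‖ * ∑ i, l i * ‖v i‖ = ∑ i, l i * (‖z‖ * ‖v i‖) := by
          rw [Finset.mul_sum]; apply Finset.sum_congr rfl; intro i _; ring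
      _ ≤ ∑ i, l i * ∑ j, (σ.matrix i j : ℝ) * ‖v j‖ :=
          Finset.sum_le_sum fun i _ => mul_le_mul_of_nonneg_left (h1 i) (hl i).le
      _ = ∑ j, (∑ i, l i * (σ.matrix i j : ℝ)) * ‖v j‖ := by
          simp only [Finset.mul_sum, Finset.sum_mul]
          rw [Finset.sum_comm]
          apply Finset.sum_congr rfl; intro j _
          apply Finset.sum_congr rfl; intro i _
          ring
      _ = ∑ j, (θ * l j) * ‖v j‖ := by
          apply Finset.sum_congr rfl; intro j _
          rw [← h j, ← sum_count]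
          rfl
      _ = θ * ∑ i, l i * ‖v i‖ := by
          rw [Finset.mul_sum]; apply Finset.sum_congr rfl; intro i _; ring
  have h4 : 0 < ∑ i, l i * ‖v i‖ := by
    obtain ⟨i, hi⟩ := Function.ne_iff.1 hv
    apply Finset.sum_pos'
    · intro j _
      exact mul_nonneg (hl j).le (norm_nonneg _)
    · exact ⟨i, Finset.mem_univ i, mul_pos (hl i) (norm_pos_iff.2 hi)⟩
  exact le_of_mul_le_mul_right h3 h4

end Substitution

lemma mem_iter_five : ∀ c : Fin 4, ∀ b : Al, b ∈ sub.iter 5 (c, 0) := by
  decide +kernel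

theorem sub_primitive : sub.IsPrimitive := by
  refine ⟨5, fun i j => ?_⟩
  apply Substitution.matrix_pow_pos
  obtain ⟨c, g⟩ := j
  rw [iter_eq, List.mem_map]
  exact ⟨tr (-g) i, mem_iter_five c _, by rw [tr_tr, add_neg_cancel, tr_zero]⟩

/-- the number of letters of type `c` in the image of a letter of type `c'` -/
def tbl : Fin 4 → Fin 4 → ℕ := ![![1, 1, 1, 1], ![1, 1, 1, 1], ![1, 0, 1, 1], ![0, 1, 1, 1]]

lemma tbl_eq : ∀ (i : Al) (c' : Fin 4), ∑ g' : ZMod 8, sub.matrix i (c', g') = tbl i.1 c' := by
  decide +kernel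

/-- right eigenvector -/
noncomputable def vR (a : Al) : ℝ := ![1, 1, √2 / 2, √2 / 2] a.1
/-- left eigenvector -/
noncomputable def vL (a : Al) : ℝ := ![1, 1, √2, √2] a.1

theorem sub_perron : IsPerronEigenvalue sub.matrix (2 + √2) := by
  have h2 := sqrt_two_mul
  have hpos : (0 : ℝ) < √2 := by positivity
  refine ⟨⟨vR, ?_, ?_⟩, ?_⟩
  · rintro ⟨c, g⟩
    fin_cases c <;> simp [vR]
  · funext i
    simp only [Matrix.mulVec, dotProduct, Matrix.map_apply, Pi.smul_apply, smul_eq_mul]
    rw [Fintype.sum_prod_type]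
    have h1 : ∀ c' : Fin 4, ∑ g' : ZMod 8, (sub.matrix i (c', g') : ℝ) * vR (c', g') =
        (tbl i.1 c' : ℝ) * vR (c', 0) := by
      intro c'
      rw [← tbl_eq]
      push_cast
      rw [Finset.sum_mul]
      rfl
    simp only [h1]
    obtain ⟨c, g⟩ := i
    fin_cases c
    · simp [Fin.sum_univ_four, tbl, vR]; linarith
    · simp [Fin.sum_univ_four, tbl, vR]; linarith
    · simp [Fin.sum_univ_four, tbl, vR]; linarith
    · simp [Fin.sum_univ_four, tbl, vR]; linarith
  · apply Substitution.norm_le_of_left (l := vL)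
    · rintro ⟨c, g⟩
      fin_cases c <;> simp [vL]
    · rintro ⟨c, g⟩
      fin_cases c
      · change ((sub.word (0, g)).map vL).sum = (2 + √2) * vL (0, g)
        rw [word0]; simp [vL]; linarith
      · change ((sub.word (1, g)).map vL).sum = (2 + √2) * vL (1, g)
        rw [word1]; simp [vL]; linarith
      · change ((sub.word (2, g)).map vL).sum = (2 + √2) * vL (2, g)
        rw [word2]; simp [vL]; linarith
      · change ((sub.word (3, g)).map vL).sum = (2 + √2) * vL (3, g)
        rw [word3]; simp [vL]; linarith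

lemma irr (n : ℤ) : (2 : ℝ) + √2 ≠ n := by
  intro h
  apply irrational_sqrt_two.ne_int (n - 2)
  push_cast
  linarith

end SubstLeb
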