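import Pool.Agent.TH292.SL.Disc

open MeasureTheory

namespace SubstLeb

section general

variable {A : Type}

lemma continuous_eval (k : ℤ) {Y : Type*} [TopologicalSpace Y] (h : A → Y) :
    Continuous (fun x : BiSeq A => h (x k)) := by
  letI : TopologicalSpace A := ⊥
  haveI : DiscreteTopology A := ⟨rfl⟩
  exact (continuous_of_discreteTopology (f := h)).comp (continuous_apply (A := fun _ : ℤ => A) k)

lemma continuous_shift (n : ℤ) : Continuous (shift n : BiSeq A → BiSeq A) := by
  letI : TopologicalSpace A := ⊥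
  haveI : DiscreteTopology A := ⟨rfl⟩
  exact continuous_pi (A := fun _ : ℤ => A) fun k => continuous_apply (A := fun _ : ℤ => A) (k + n)

lemma measurable_shift (n : ℤ) : Measurable (shift n : BiSeq A → BiSeq A) :=
  (continuous_shift n).measurable

lemma shift_shift (m n : ℤ) (x : BiSeq A) : shift m (shift n x) = shift (m + n) x := by
  funext k
  simp only [shift]
  congr 1
  ring

lemma shift_zero (x : BiSeq A) : shift 0 x = x := by
  funext k
  simp [shift]

lemma window_shift (n k : ℤ) (l : ℕ) (x : BiSeq A) :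
    window (shift n x) k l = window x (k + n) l := by
  unfold window
  apply List.map_congr_left
  intro j _
  simp only [shift]
  congr 1
  ring

lemma shift_mem_space (σ : Substitution A) (n : ℤ) {x : BiSeq A} (hx : x ∈ σ.space) :
    shift n x ∈ σ.space := by
  intro k l
  rw [window_shift]
  exact hx _ _

lemma map_shift {σ : Substitution A} {μ : Measure (BiSeq A)} (hμ : σ.IsInvariantMeasure μ) (n : ℤ) :
    MeasurePreserving (shift n) μ μ := by
  have h1 : ∀ n : ℕ, μ.map (shift (n : ℤ)) = μ := by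
    intro n
    induction n with
    | zero =>
      have : (shift ((0 : ℕ) : ℤ) : BiSeq A → BiSeq A) = id := by
        funext x; exact shift_zero x
      rw [this, Measure.map_id]
    | succ n ih =>
      have : (shift ((n + 1 : ℕ) : ℤ) : BiSeq A → BiSeq A) = shift 1 ∘ shift (n : ℤ) := by
        funext x
        simp only [Function.comp]
        rw [shift_shift]
        congr 1
        push_cast
        ring
      rw [this, ← Measure.map_map (measurable_shift _) (measurable_shift _), ih, hμ.inv]
  refine ⟨measurable_shift n, ?_⟩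
  obtain ⟨m, rfl | rfl⟩ := n.eq_nat_or_neg
  · exact h1 m
  · conv_lhs => rw [← h1 m]
    rw [Measure.map_map (measurable_shift _) (measurable_shift _)]
    have : (shift (-(m : ℤ)) ∘ shift (m : ℤ) : BiSeq A → BiSeq A) = id := by
      funext x
      simp only [Function.comp]
      rw [shift_shift, neg_add_cancel, shift_zero]
      rfl
    rw [this, Measure.map_id]

end general

/-- the Birkhoff sums of `f∘Tⁿ⁺¹ conj f` are small on the space of the substitution -/
lemma birkhoff_bound (n m : ℕ) : ∃ K : ℝ, ∀ x ∈ sub.space, ∀ N : ℕ,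
    ‖∑ j ∈ Finset.range N, fl (x ((j : ℤ) + (n + 1))) * (starRingEnd ℂ) (fl (x (j : ℤ)))‖ ≤
      (n + 1) * (N / 2 ^ m) + K := by
  obtain ⟨K, hK⟩ := cor_bound n m
  refine ⟨K + (n + 1), fun x hx N => ?_⟩
  obtain ⟨k, a, hka⟩ := hx 0 N
  have h1 := hK k (window x 0 N) ⟨a, hka⟩
  rw [window_length] at h1
  have h2 := (cor_window norm_fl n x 0 N).trans (min_le_right _ _)
  simp only [zero_add] at h2
  rw [norm_sub_rev] at h2
  have h3 := norm_sub_norm_le (∑ j ∈ Finset.range N, fl (x ((j : ℤ) + (n + 1))) *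
    (starRingEnd ℂ) (fl (x (j : ℤ)))) (cor fl n (window x 0 N))
  linarith

lemma eq_zero_of_bounds {c : ℝ} (hc : 0 ≤ c) (n : ℕ)
    (h : ∀ m : ℕ, ∃ K : ℝ, ∀ N : ℕ, N * c ≤ (n + 1) * (N / 2 ^ m) + K) : c = 0 := by
  by_contra hne
  have hpos : 0 < c := lt_of_le_of_ne hc (Ne.symm hne)
  obtain ⟨m, hm⟩ := exists_nat_gt (2 * (n + 1) / c)
  obtain ⟨K, hK⟩ := h m
  have h1 : (m : ℝ) ≤ 2 ^ m := by exact_mod_cast (Nat.lt_two_pow_self).le
  have h2 : 2 * ((n : ℝ) + 1) < c * 2 ^ m := by
    rw [div_lt_iff₀ hpos] at hm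
    nlinarith
  obtain ⟨N, hN⟩ := exists_nat_gt (2 * K / c)
  have h3 := hK N
  have h4 : ((n : ℝ) + 1) * (N / 2 ^ m) ≤ N * c / 2 := by
    have h5 : ((n : ℝ) + 1) / 2 ^ m ≤ c / 2 := by
      rw [div_le_iff₀ (by positivity)]
      nlinarith
    calc ((n : ℝ) + 1) * (N / 2 ^ m) = N * ((n + 1) / 2 ^ m) := by ring
      _ ≤ N * (c / 2) := mul_le_mul_of_nonneg_left h5 (by positivity)
      _ = _ := by ring
  rw [div_lt_iff₀ hpos] at hN
  linarith

/-- no sequence of the space is periodic -/
lemma not_periodic {x : BiSeq Al} (hx : x ∈ sub.space) (n : ℕ) : shift ((n : ℤ) + 1) x ≠ x := by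
  intro hper
  have h1 : ∀ j : ℤ, x (j + (n + 1)) = x j := fun j => congrFun hper j
  have h2 : (1 : ℝ) = 0 := by
    apply eq_zero_of_bounds (by norm_num) n
    intro m
    obtain ⟨K, hK⟩ := birkhoff_bound n m
    refine ⟨K, fun N => ?_⟩
    have h3 := hK x hx N
    have h4 : ∑ j ∈ Finset.range N, fl (x ((j : ℤ) + (n + 1))) * (starRingEnd ℂ) (fl (x (j : ℤ))) =
        N := by
      rw [Finset.sum_congr rfl (g := fun _ => (1 : ℂ))]
      · simp
      · intro j _
        rw [h1, Complex.mul_conj, Complex.normSq_eq_norm_sq, norm_fl]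
        simp
    rw [h4] at h3
    simpa using h3
  norm_num at h2

lemma space_infinite (hne : sub.space.Nonempty) : sub.space.Infinite := by
  intro hfin
  obtain ⟨x, hx⟩ := hne
  haveI : Finite sub.space := hfin
  obtain ⟨a, b, hab, heq⟩ := Finite.exists_ne_map_eq_of_infinite
    (fun n : ℕ => (⟨shift (n : ℤ) x, shift_mem_space sub n hx⟩ : sub.space))
  simp only [Subtype.mk.injEq] at heq
  wlog hlt : a < b generalizing a b
  · exact this b a hab.symm heq.symm (by omega)
  obtain ⟨k, rfl⟩ := Nat.exists_eq_add_of_lt hlt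
  apply not_periodic hx k
  have h1 := congrArg (shift (-(a : ℤ))) heq
  rw [shift_shift, shift_shift, neg_add_cancel, shift_zero] at h1
  conv_rhs => rw [h1]
  congr 1
  push_cast
  ring

/-- the function `f` on the space of sequences -/
noncomputable def ff (x : BiSeq Al) : ℂ := fl (x 0)

lemma continuous_ff : Continuous ff := continuous_eval 0 fl

lemma norm_ff (x : BiSeq Al) : ‖ff x‖ = 1 := norm_fl _

lemma integral_pos_lag {μ : Measure (BiSeq Al)} (hμ : sub.IsInvariantMeasure μ) (n : ℕ) :
    ∫ x, ff (shift ((n : ℤ) + 1) x) * (starRingEnd ℂ) (ff x) ∂μ = 0 := by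
  haveI := hμ.prob
  rw [← norm_eq_zero]
  apply eq_zero_of_bounds (norm_nonneg _) n
  intro m
  obtain ⟨K, hK⟩ := birkhoff_bound n m
  refine ⟨K, fun N => ?_⟩
  set g : BiSeq Al → ℂ := fun x => ff (shift ((n : ℤ) + 1) x) * (starRingEnd ℂ) (ff x) with hg
  have hgc : Continuous g :=
    (continuous_ff.comp (continuous_shift _)).mul (Complex.continuous_conj.comp continuous_ff)
  have hgn : ∀ x, ‖g x‖ ≤ 1 := by
    intro x
    rw [hg]
    simp only
    rw [norm_mul, RCLike.norm_conj, norm_ff, norm_ff, mul_one]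
  have hgi : ∀ j : ℤ, Integrable (fun x => g (shift j x)) μ := by
    intro j
    apply Integrable.of_bound (C := 1)
    · exact (hgc.comp (continuous_shift j)).measurable.aestronglyMeasurable
    · exact Filter.Eventually.of_forall fun x => hgn _
  have h1 : ∀ j : ℤ, ∫ x, g (shift j x) ∂μ = ∫ x, g x ∂μ := by
    intro j
    have h2 := map_shift hμ j
    conv_rhs => rw [← h2.map_eq]
    rw [integral_map h2.measurable.aemeasurable hgc.measurable.aestronglyMeasurable]
  have h3 : (N : ℂ) * ∫ x, g x ∂μ = ∫ x, ∑ j ∈ Finset.range N, g (shift (j : ℤ) x) ∂μ := by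
    rw [integral_finsetSum (Finset.range N) (f := fun (j : ℕ) x => g (shift (j : ℤ) x))
      (fun j _ => hgi j)]
    simp [h1]
  have h4 : ‖∫ x, ∑ j ∈ Finset.range N, g (shift (j : ℤ) x) ∂μ‖ ≤
      ((n + 1) * (N / 2 ^ m) + K) * μ.real Set.univ := by
    apply norm_integral_le_of_norm_le_const
    have h5 : ∀ᵐ x ∂μ, x ∈ sub.space := by
      rw [ae_iff]
      exact hμ.supp
    filter_upwards [h5] with x hx
    have h6 := hK x hx N
    have h7 : ∑ j ∈ Finset.range N, g (shift (j : ℤ) x) =
        ∑ j ∈ Finset.range N, fl (x ((j : ℤ) + (n + 1))) * (starRingEnd ℂ) (fl (x (j : ℤ))) := by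
      apply Finset.sum_congr rfl
      intro j _
      simp only [hg, ff, shift_shift]
      simp only [shift, zero_add]
      rw [add_comm]
    rw [h7]
    exact h6
  rw [← h3] at h4
  simpa using h4

lemma integral_lag {μ : Measure (BiSeq Al)} (hμ : sub.IsInvariantMeasure μ) (n : ℤ) :
    ∫ x, ff (shift n x) * (starRingEnd ℂ) (ff x) ∂μ = if n = 0 then 1 else 0 := by
  haveI := hμ.prob
  rcases lt_trichotomy n 0 with h | h | h
  · rw [if_neg h.ne]
    obtain ⟨m, hm⟩ : ∃ m : ℕ, -n = (m : ℤ) + 1 := ⟨(-n - 1).toNat, by omega⟩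
    have h1 := integral_pos_lag hμ m
    rw [← hm] at h1
    have h2 := map_shift hμ (-n)
    have hgc : Continuous fun x => ff (shift n x) * (starRingEnd ℂ) (ff x) :=
      (continuous_ff.comp (continuous_shift _)).mul (Complex.continuous_conj.comp continuous_ff)
    conv_lhs => rw [← h2.map_eq]
    rw [integral_map h2.measurable.aemeasurable hgc.measurable.aestronglyMeasurable]
    have h3 : ∀ x : BiSeq Al, ff (shift n (shift (-n) x)) * (starRingEnd ℂ) (ff (shift (-n) x)) =
        (starRingEnd ℂ) (ff (shift (-n) x) * (starRingEnd ℂ) (ff x)) := by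
      intro x
      rw [shift_shift, add_neg_cancel, shift_zero, map_mul, Complex.conj_conj]
      ring
    simp only [h3]
    rw [integral_conj, h1, map_zero]
  · rw [if_pos h, h]
    have h3 : ∀ x : BiSeq Al, ff (shift 0 x) * (starRingEnd ℂ) (ff x) = 1 := by
      intro x
      rw [shift_zero, Complex.mul_conj, Complex.normSq_eq_norm_sq, norm_ff]
      simp
    simp only [h3]
    simp
  · rw [if_neg h.ne']
    obtain ⟨m, hm⟩ : ∃ m : ℕ, n = (m : ℤ) + 1 := ⟨(n - 1).toNat, by omega⟩
    rw [hm]
    exact integral_pos_lag hμ m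

/-- the spectral measure of `f` is Lebesgue measure -/
theorem isSpectralMeasure_volume {μ : Measure (BiSeq Al)} (hμ : sub.IsInvariantMeasure μ) :
    IsSpectralMeasure μ ff (volume : Measure UnitAddCircle) := by
  refine ⟨inferInstance, fun n => ?_⟩
  rw [integral_lag hμ n]
  split_ifs with h
  · subst h
    have h1 : (volume : Measure UnitAddCircle).real Set.univ = 1 := by
      rw [Measure.real, UnitAddCircle.measure_univ]; simp
    simp [h1]
  · exact integral_eq_zero_of_add_right_eq_neg (μ := (volume : Measure UnitAddCircle))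
      (fourier_add_half_inv_index h (by norm_num))

theorem hasLebesgueComponent {μ : Measure (BiSeq Al)} (hμ : sub.IsInvariantMeasure μ) :
    HasLebesgueComponent μ := by
  haveI := hμ.prob
  refine ⟨ff, ?_, volume, isSpectralMeasure_volume hμ, ?_⟩
  · apply MemLp.of_bound (C := 1) continuous_ff.measurable.aestronglyMeasurable
    exact Filter.Eventually.of_forall fun x => (norm_ff x).le
  · rw [Measure.MutuallySingular.self_iff]
    intro h
    have : (volume : Measure UnitAddCircle) Set.univ = 0 := by rw [h]; simp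
    simp at this

end SubstLeb
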