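import Pool.Agent.TH292.SL.Laur

open MeasureTheory LaurentPolynomial

namespace SubstLeb

/-- the alphabet -/
abbrev Al : Type := Fin 4 × ZMod 8

/-- the images of the letters `(c, 0)` -/
def base : Fin 4 → List Al
  | 0 => [(2, 0), (0, 0), (1, 0)]
  | 1 => [(0, 0), (1, 4), (3, 0)]
  | 2 => [(2, 0), (0, 5), (1, 3), (3, 2)]
  | 3 => [(2, 2), (0, 5), (1, 7), (3, 0)]

/-- translation of the second component -/
def tr (g : ZMod 8) (a : Al) : Al := (a.1, g + a.2)

/-- the substitution -/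
def sub : Substitution Al where
  word a := (base a.1).map (tr a.2)
  word_ne_nil := by
    rintro ⟨c, g⟩
    fin_cases c <;> simp [base]

lemma tr_tr (g h : ZMod 8) (a : Al) : tr g (tr h a) = tr (g + h) a := by
  simp [tr, add_assoc]

lemma tr_zero (a : Al) : tr 0 a = a := by simp [tr]

lemma word_tr (g : ZMod 8) (a : Al) : sub.word (tr g a) = (sub.word a).map (tr g) := by
  simp only [sub, List.map_map]
  apply List.map_congr_left
  intro b _
  simp [tr, add_assoc]

lemma onWord_map_tr (g : ZMod 8) (w : List Al) :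
    sub.onWord (w.map (tr g)) = (sub.onWord w).map (tr g) := by
  induction w with
  | nil => rfl
  | cons a w ih =>
    simp only [Substitution.onWord, List.map_cons, List.flatMap_cons, List.map_append] at ih ⊢
    rw [ih, word_tr]

lemma iter_tr (n : ℕ) (g : ZMod 8) (a : Al) : sub.iter n (tr g a) = (sub.iter n a).map (tr g) := by
  induction n with
  | zero => rfl
  | succ n ih => rw [Substitution.iter, Function.iterate_succ_apply', Substitution.iter,
      Function.iterate_succ_apply', ← onWord_map_tr]; congr 1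

lemma iter_eq (n : ℕ) (c : Fin 4) (g : ZMod 8) :
    sub.iter n (c, g) = (sub.iter n (c, 0)).map (tr g) := by
  rw [← iter_tr]
  simp [tr]

lemma word0 (g : ZMod 8) : sub.word (0, g) = [(2, g), (0, g), (1, g)] := by
  simp [sub, base, tr]
lemma word1 (g : ZMod 8) : sub.word (1, g) = [(0, g), (1, g + 4), (3, g)] := by
  simp [sub, base, tr]
lemma word2 (g : ZMod 8) : sub.word (2, g) = [(2, g), (0, g + 5), (1, g + 3), (3, g + 2)] := by
  simp [sub, base, tr]
lemma word3 (g : ZMod 8) : sub.word (3, g) = [(2, g + 2), (0, g + 5), (1, g + 7), (3, g)] := by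
  simp [sub, base, tr]

lemma flatMap_three {B C : Type} (φ : B → List C) (a b c : B) :
    [a, b, c].flatMap φ = φ a ++ (φ b ++ φ c) := by simp

lemma flatMap_four {B C : Type} (φ : B → List C) (a b c d : B) :
    [a, b, c, d].flatMap φ = φ a ++ (φ b ++ (φ c ++ φ d)) := by simp

lemma iter0 (m : ℕ) (g : ZMod 8) : sub.iter (m + 1) (0, g) =
    sub.iter m (2, g) ++ (sub.iter m (0, g) ++ sub.iter m (1, g)) := by
  rw [Substitution.iter_succ, word0, flatMap_three]
lemma iter1 (m : ℕ) (g : ZMod 8) : sub.iter (m + 1) (1, g) =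
    sub.iter m (0, g) ++ (sub.iter m (1, g + 4) ++ sub.iter m (3, g)) := by
  rw [Substitution.iter_succ, word1, flatMap_three]
lemma iter2 (m : ℕ) (g : ZMod 8) : sub.iter (m + 1) (2, g) =
    sub.iter m (2, g) ++ (sub.iter m (0, g + 5) ++ (sub.iter m (1, g + 3) ++
      sub.iter m (3, g + 2))) := by
  rw [Substitution.iter_succ, word2, flatMap_four]
lemma iter3 (m : ℕ) (g : ZMod 8) : sub.iter (m + 1) (3, g) =
    sub.iter m (2, g + 2) ++ (sub.iter m (0, g + 5) ++ (sub.iter m (1, g + 7) ++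
      sub.iter m (3, g))) := by
  rw [Substitution.iter_succ, word3, flatMap_four]

/-- lengths -/
lemma exists_len (m : ℕ) : ∃ L L' : ℕ, ∀ g : ZMod 8, (sub.iter m (0, g)).length = L ∧
    (sub.iter m (1, g)).length = L ∧ (sub.iter m (2, g)).length = L' ∧
    (sub.iter m (3, g)).length = L' := by
  induction m with
  | zero => exact ⟨1, 1, fun g => ⟨rfl, rfl, rfl, rfl⟩⟩
  | succ m ih =>
    obtain ⟨L, L', h⟩ := ih
    have h0 : ∀ g, (sub.iter m (0, g)).length = L := fun g => (h g).1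
    have h1 : ∀ g, (sub.iter m (1, g)).length = L := fun g => (h g).2.1
    have h2 : ∀ g, (sub.iter m (2, g)).length = L' := fun g => (h g).2.2.1
    have h3 : ∀ g, (sub.iter m (3, g)).length = L' := fun g => (h g).2.2.2
    refine ⟨L' + L + L, L' + L + L + L', fun g => ⟨?_, ?_, ?_, ?_⟩⟩
    · rw [iter0, List.length_append, List.length_append, h0, h1, h2]; ring
    · rw [iter1, List.length_append, List.length_append, h0, h1, h3]; ring
    · rw [iter2, List.length_append, List.length_append, List.length_append, h0, h1, h2, h3]; ring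
    · rw [iter3, List.length_append, List.length_append, List.length_append, h0, h1, h2, h3]; ring

/-! ### the character -/

/-- the primitive eighth root of unity -/
noncomputable def ze : ℂ := (√2 / 2 : ℝ) * (1 + Complex.I)

lemma ze_sq : ze ^ 2 = Complex.I := by
  have h : (√2 : ℝ) ^ 2 = 2 := Real.sq_sqrt (by norm_num)
  have h' : ((√2 : ℝ) : ℂ) ^ 2 = 2 := by exact_mod_cast h
  rw [ze]
  push_cast
  have := Complex.I_sq
  linear_combination (1 / 4 * (1 + Complex.I) ^ 2) * h' + (1 / 2) * this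

lemma ze_four : ze ^ 4 = -1 := by
  have : ze ^ 4 = (ze ^ 2) ^ 2 := by ring
  rw [this, ze_sq, Complex.I_sq]

lemma ze_eight : ze ^ 8 = 1 := by
  have : ze ^ 8 = (ze ^ 4) ^ 2 := by ring
  rw [this, ze_four]; norm_num

lemma norm_ze : ‖ze‖ = 1 := Complex.norm_eq_one_of_pow_eq_one ze_eight (by norm_num)

/-- the character -/
noncomputable def chi (g : ZMod 8) : ℂ := ze ^ g.val

lemma norm_chi (g : ZMod 8) : ‖chi g‖ = 1 := by rw [chi, norm_pow, norm_ze, one_pow]

lemma chi_add (g h : ZMod 8) : chi (g + h) = chi g * chi h := by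
  rw [chi, chi, chi, ZMod.val_add, ← pow_add]
  exact (pow_eq_pow_mod _ ze_eight).symm

lemma chi_zero : chi 0 = 1 := by simp [chi]

/-- the function `f` on letters -/
noncomputable def fl (a : Al) : ℂ := chi a.2

lemma norm_fl (a : Al) : ‖fl a‖ = 1 := norm_chi _

lemma fl_tr (g : ZMod 8) (a : Al) : fl (tr g a) = chi g * fl a := chi_add _ _

lemma ze_mul_conj : ze * (starRingEnd ℂ) ze = 1 := by
  rw [Complex.mul_conj, Complex.normSq_eq_norm_sq, norm_ze]; simp

lemma conj_ze : (starRingEnd ℂ) ze = -ze ^ 3 := by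
  have h1 := ze_mul_conj
  have h2 := ze_four
  have h3 : ze ≠ 0 := by
    intro h; rw [h] at h2; norm_num at h2
  apply mul_left_cancel₀ h3
  linear_combination h1 + h2

/-- `1/√2` -/
noncomputable def rr : ℂ := ((√2 / 2 : ℝ) : ℂ)

lemma two_rr_sq : 2 * rr ^ 2 = 1 := by
  have h : (√2 : ℝ) ^ 2 = 2 := Real.sq_sqrt (by norm_num)
  have h' : ((√2 : ℝ) : ℂ) ^ 2 = 2 := by exact_mod_cast h
  rw [rr]; push_cast
  linear_combination (1 / 2) * h'

lemma rr_one : rr * (1 + ze ^ 2) = ze := by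
  rw [ze_sq]; rfl

lemma rr_two : rr * (1 - ze ^ 2) = -ze ^ 3 := by
  rw [← conj_ze, ze_sq, ze, rr, map_mul, Complex.conj_ofReal, map_add, Complex.conj_I, map_one]
  ring

/-! ### the recursion -/

/-- the polynomial of `σᵐ(c,0)` -/
noncomputable def P (m : ℕ) (c : Fin 4) : ℂ[T;T⁻¹] := Fp fl (sub.iter m (c, 0))
/-- its adjoint -/
noncomputable def Ps (m : ℕ) (c : Fin 4) : ℂ[T;T⁻¹] := Fs fl (sub.iter m (c, 0))

lemma Fp_iter (m : ℕ) (c : Fin 4) (g : ZMod 8) :
    Fp fl (sub.iter m (c, g)) = C (chi g) * P m c := by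
  rw [iter_eq, Fp_map_mul (tr g) (chi g) (fl_tr g)]
  rfl

lemma Fs_iter (m : ℕ) (c : Fin 4) (g : ZMod 8) :
    Fs fl (sub.iter m (c, g)) = C ((starRingEnd ℂ) (chi g)) * Ps m c := by
  rw [iter_eq, Fs_map_mul (tr g) (chi g) (fl_tr g)]
  rfl

/-- the quadratic form -/
noncomputable def Qf (m : ℕ) : ℂ[T;T⁻¹] :=
  P m 0 * Ps m 0 + P m 1 * Ps m 1 + C rr * (P m 2 * Ps m 2 + P m 3 * Ps m 3)

lemma chi_two : chi 2 = ze ^ 2 := rfl
lemma chi_three : chi 3 = ze ^ 3 := rfl
lemma chi_four : chi 4 = -1 := by rw [← ze_four]; rfl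
lemma chi_five : chi 5 = -ze := by
  have : chi 5 = ze ^ 5 := rfl
  rw [this]
  linear_combination ze * ze_four
lemma chi_seven : chi 7 = -ze ^ 3 := by
  have : chi 7 = ze ^ 7 := rfl
  rw [this]
  linear_combination ze ^ 3 * ze_four

lemma conj_two : (starRingEnd ℂ) (chi 2) = -ze ^ 2 := by
  rw [chi_two, map_pow, conj_ze]
  linear_combination ze ^ 2 * ze_four
lemma conj_three : (starRingEnd ℂ) (chi 3) = -ze := by
  rw [chi_three, map_pow, conj_ze]
  linear_combination (-ze ^ 5 + ze) * ze_four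
lemma conj_four : (starRingEnd ℂ) (chi 4) = -1 := by
  rw [chi_four]; simp
lemma conj_five : (starRingEnd ℂ) (chi 5) = ze ^ 3 := by
  rw [chi_five, map_neg, conj_ze]; ring
lemma conj_seven : (starRingEnd ℂ) (chi 7) = ze := by
  rw [chi_seven, map_neg, map_pow, conj_ze]
  linear_combination (ze ^ 5 - ze) * ze_four

lemma Qf_succ (m : ℕ) : Qf (m + 1) = (2 + 2 * C rr) * Qf m := by
  obtain ⟨L, L', h⟩ := exists_len m
  have h0 : ∀ g, (sub.iter m (0, g)).length = L := fun g => (h g).1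
  have h1 : ∀ g, (sub.iter m (1, g)).length = L := fun g => (h g).2.1
  have h2 : ∀ g, (sub.iter m (2, g)).length = L' := fun g => (h g).2.2.1
  have h3 : ∀ g, (sub.iter m (3, g)).length = L' := fun g => (h g).2.2.2
  set u : ℂ[T;T⁻¹] := T L with hu
  set us : ℂ[T;T⁻¹] := T (-L) with hus
  set v : ℂ[T;T⁻¹] := T L' with hv
  set vs : ℂ[T;T⁻¹] := T (-L') with hvs
  set Z : ℂ[T;T⁻¹] := C ze with hZdef
  set r : ℂ[T;T⁻¹] := C rr with hrdef
  have huu : u * us = 1 := by rw [hu, hus, ← T_add]; simp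
  have hvv : v * vs = 1 := by rw [hv, hvs, ← T_add]; simp
  have hZ : Z ^ 4 = -1 := by rw [hZdef, ← map_pow, ze_four]; simp
  have hr1 : r * (1 + Z ^ 2) = Z := by
    rw [hZdef, hrdef, ← map_pow, ← map_one C, ← map_add, ← map_mul, rr_one]
  have hr2 : r * (1 - Z ^ 2) = -Z ^ 3 := by
    rw [hZdef, hrdef, ← map_pow, ← map_one C, ← map_sub, ← map_mul, rr_two]; simp
  have h22 : 2 * r ^ 2 = 1 := by
    have : (2 : ℂ[T;T⁻¹]) = C 2 := (map_ofNat C 2).symm
    rw [this, hrdef, ← map_pow, ← map_mul, two_rr_sq, map_one]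
  have e0 : P (m + 1) 0 = P m 2 + v * P m 0 + v * u * P m 1 := by
    rw [P, iter0, Fp_append, Fp_append, Fp_iter, Fp_iter, Fp_iter, h0, h2, chi_zero, map_one]
    ring
  have e0s : Ps (m + 1) 0 = Ps m 2 + vs * Ps m 0 + vs * us * Ps m 1 := by
    rw [Ps, iter0, Fs_append, Fs_append, Fs_iter, Fs_iter, Fs_iter, h0, h2, chi_zero, map_one,
      map_one]
    ring
  have e1 : P (m + 1) 1 = P m 0 - u * P m 1 + u ^ 2 * P m 3 := by
    rw [P, iter1, Fp_append, Fp_append, Fp_iter, Fp_iter, Fp_iter, h0, h1, zero_add, chi_zero,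
      chi_four, map_one, map_neg, map_one]
    ring
  have e1s : Ps (m + 1) 1 = Ps m 0 - us * Ps m 1 + us ^ 2 * Ps m 3 := by
    rw [Ps, iter1, Fs_append, Fs_append, Fs_iter, Fs_iter, Fs_iter, h0, h1, zero_add, conj_four,
      chi_zero, map_one, map_one, map_neg, map_one]
    ring
  have e2 : P (m + 1) 2 = P m 2 - v * Z * P m 0 + v * u * Z ^ 3 * P m 1 +
      v * u ^ 2 * Z ^ 2 * P m 3 := by
    rw [P, iter2, Fp_append, Fp_append, Fp_append, Fp_iter, Fp_iter, Fp_iter, Fp_iter, h0, h1, h2,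
      zero_add, zero_add, zero_add, chi_zero, chi_five, chi_three, chi_two, map_one, map_neg,
      map_pow, map_pow]
    ring
  have e2s : Ps (m + 1) 2 = Ps m 2 + vs * Z ^ 3 * Ps m 0 - vs * us * Z * Ps m 1 -
      vs * us ^ 2 * Z ^ 2 * Ps m 3 := by
    rw [Ps, iter2, Fs_append, Fs_append, Fs_append, Fs_iter, Fs_iter, Fs_iter, Fs_iter, h0, h1, h2,
      zero_add, zero_add, zero_add, conj_five, conj_three, conj_two, chi_zero, map_one, map_one,
      map_neg, map_neg, map_pow, map_pow]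
    ring
  have e3 : P (m + 1) 3 = Z ^ 2 * P m 2 - v * Z * P m 0 - v * u * Z ^ 3 * P m 1 +
      v * u ^ 2 * P m 3 := by
    rw [P, iter3, Fp_append, Fp_append, Fp_append, Fp_iter, Fp_iter, Fp_iter, Fp_iter, h0, h1, h2,
      zero_add, zero_add, zero_add, chi_zero, chi_five, chi_seven, chi_two, map_one, map_neg,
      map_neg, map_pow, map_pow]
    ring
  have e3s : Ps (m + 1) 3 = -Z ^ 2 * Ps m 2 + vs * Z ^ 3 * Ps m 0 + vs * us * Z * Ps m 1 +
      vs * us ^ 2 * Ps m 3 := by
    rw [Ps, iter3, Fs_append, Fs_append, Fs_append, Fs_iter, Fs_iter, Fs_iter, Fs_iter, h0, h1, h2,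
      zero_add, zero_add, zero_add, conj_five, conj_seven, conj_two, chi_zero, map_one, map_one,
      map_neg, map_pow, map_pow]
    ring
  have key := key_identity Z r (P m 2) (Ps m 2) (v * P m 0) (vs * Ps m 0) (v * u * P m 1)
    (vs * us * Ps m 1) (v * u ^ 2 * P m 3) (vs * us ^ 2 * Ps m 3) hZ hr1 hr2 h22
  have h5 : v * P m 0 * (vs * Ps m 0) = P m 0 * Ps m 0 := by
    linear_combination (P m 0 * Ps m 0) * hvv
  have h6 : v * u * P m 1 * (vs * us * Ps m 1) = P m 1 * Ps m 1 := by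
    linear_combination (P m 1 * Ps m 1) * (u * us * hvv + huu)
  have h7 : v * u ^ 2 * P m 3 * (vs * us ^ 2 * Ps m 3) = P m 3 * Ps m 3 := by
    linear_combination (P m 3 * Ps m 3) * (u ^ 2 * us ^ 2 * hvv + (u * us + 1) * huu)
  have h8 : P (m + 1) 1 * Ps (m + 1) 1 = (v * P m 0 - v * u * P m 1 + v * u ^ 2 * P m 3) *
      (vs * Ps m 0 - vs * us * Ps m 1 + vs * us ^ 2 * Ps m 3) := by
    rw [e1, e1s]
    linear_combination -((P m 0 - u * P m 1 + u ^ 2 * P m 3) *
      (Ps m 0 - us * Ps m 1 + us ^ 2 * Ps m 3)) * hvv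
  rw [h5, h6, h7] at key
  rw [Qf, h8, e0, e0s, e2, e2s, e3, e3s, Qf]
  linear_combination key

lemma Qf_zero : Qf 0 = 2 + 2 * C rr := by
  have h : ∀ c, P 0 c = 1 := by
    intro c
    simp [P, Substitution.iter_zero, Fp, fl, chi_zero]
  have h' : ∀ c, Ps 0 c = 1 := by
    intro c
    simp [Ps, Substitution.iter_zero, Fs, fl, chi_zero]
  rw [Qf]
  simp only [h, h']
  ring

lemma Qf_eq (m : ℕ) : Qf m = C ((2 + 2 * rr) ^ (m + 1)) := by
  induction m with
  | zero => rw [Qf_zero, zero_add, pow_one, map_add, map_mul, map_ofNat]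
  | succ m ih =>
    rw [Qf_succ, ih, pow_succ _ (m + 1), map_mul, map_add, map_mul, map_ofNat]
    ring

/-- the weighted sum of the correlations of the blocks vanishes -/
theorem sum_cor (m n : ℕ) :
    cor fl n (sub.iter m (0, 0)) + cor fl n (sub.iter m (1, 0)) +
      rr * (cor fl n (sub.iter m (2, 0)) + cor fl n (sub.iter m (3, 0))) = 0 := by
  have h : (Qf m).coeff ((n : ℤ) + 1) = 0 := by
    rw [Qf_eq, C_apply, if_neg (by omega)]
  rw [Qf, coeff_add', coeff_add', coeff_C_mul, coeff_add'] at h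
  simp only [P, Ps, coeff_mul_eq] at h
  exact h

lemma cor_iter (m n : ℕ) (c : Fin 4) (g : ZMod 8) :
    cor fl n (sub.iter m (c, g)) = cor fl n (sub.iter m (c, 0)) := by
  rw [iter_eq, cor_map_mul (tr g) (chi g) (norm_chi g) (fl_tr g)]

end SubstLeb
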