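import Pool.Agent.TH292.SL.Exist

open MeasureTheory Filter Topology

namespace SubstLeb

variable {A : Type}

open Classical in
/-- indicator of a proposition -/
noncomputable def ind (p : Prop) : ℝ := if p then 1 else 0

lemma ind_of {p : Prop} (h : p) : ind p = 1 := by rw [ind, if_pos h]
lemma ind_not {p : Prop} (h : ¬ p) : ind p = 0 := by rw [ind, if_neg h]
lemma ind_congr {p q : Prop} (h : p ↔ q) : ind p = ind q := by rw [propext h]
lemma ind_nonneg (p : Prop) : 0 ≤ ind p := by rw [ind]; split_ifs <;> norm_num
lemma ind_le_one (p : Prop) : ind p ≤ 1 := by rw [ind]; split_ifs <;> norm_num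

/-- the number of occurrences of `W` in a word -/
noncomputable def occ (W : List A) : List A → ℝ
  | [] => 0
  | a :: u => ind (W <+: a :: u) + occ W u

lemma occ_nonneg (W u : List A) : 0 ≤ occ W u := by
  induction u with
  | nil => simp [occ]
  | cons a u ih =>
    rw [occ]
    have := ind_nonneg (W <+: a :: u)
    linarith

lemma occ_le (W u : List A) : occ W u ≤ u.length := by
  induction u with
  | nil => simp [occ]
  | cons a u ih =>
    rw [occ, List.length_cons]
    push_cast
    have := ind_le_one (W <+: a :: u)
    linarith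

lemma occ_append (W u v : List A) : occ W u + occ W v ≤ occ W (u ++ v) ∧
    occ W (u ++ v) ≤ occ W u + occ W v + min (u.length : ℝ) W.length := by
  induction u with
  | nil =>
    simp only [List.nil_append, occ, zero_add, le_refl, true_and, List.length_nil, Nat.cast_zero]
    have : (0 : ℝ) ≤ min 0 (W.length : ℝ) := by
      rw [le_min_iff]; exact ⟨le_rfl, by positivity⟩
    linarith
  | cons a u ih =>
    obtain ⟨h1, h2⟩ := ih
    rw [List.cons_append, occ, occ, List.length_cons]
    have hmono : W <+: a :: u → W <+: a :: (u ++ v) := fun h => by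
      rw [← List.cons_append]; exact h.trans (List.prefix_append _ _)
    rcases le_or_gt W.length (u.length + 1) with h | h
    · have h3 : W <+: a :: (u ++ v) ↔ W <+: a :: u := by
        rw [← List.cons_append]
        constructor
        · intro h4
          exact List.prefix_of_prefix_length_le h4 (List.prefix_append _ _) (by simpa using h)
        · intro h4
          exact h4.trans (List.prefix_append _ _)
      have h5 : min (u.length : ℝ) W.length ≤ min ((u.length + 1 : ℕ) : ℝ) W.length := by
        apply min_le_min _ le_rfl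
        push_cast; linarith
      rw [ind_congr h3]
      constructor
      · linarith
      · linarith
    · have h3 : ¬ (W <+: a :: u) := by
        intro h4
        have := h4.length_le
        simp at this
        omega
      have h6 : (u.length : ℝ) + 1 ≤ W.length := by exact_mod_cast h.le
      have h5 : min ((u.length + 1 : ℕ) : ℝ) (W.length : ℝ) = u.length + 1 := by
        push_cast
        exact min_eq_left h6
      have h7 : min (u.length : ℝ) W.length = u.length := min_eq_left (by linarith)
      rw [h5, ind_not h3]
      rw [h7] at h2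
      have h8 := ind_nonneg (W <+: a :: (u ++ v))
      have h9 := ind_le_one (W <+: a :: (u ++ v))
      constructor
      · linarith
      · linarith

lemma occ_append_le (W u v : List A) : occ W (u ++ v) ≤ occ W u + occ W v + W.length :=
  (occ_append W u v).2.trans (by have := min_le_right (u.length : ℝ) W.length; linarith)

lemma occ_flatMap (W : List A) (φ : A → List A) (v : List A) :
    (v.map (fun b => occ W (φ b))).sum ≤ occ W (v.flatMap φ) ∧
    occ W (v.flatMap φ) ≤ (v.map (fun b => occ W (φ b))).sum + W.length * v.length := by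
  induction v with
  | nil => simp [occ]
  | cons b v ih =>
    obtain ⟨h1, h2⟩ := ih
    rw [List.flatMap_cons, List.map_cons, List.sum_cons, List.length_cons]
    have h3 := (occ_append W (φ b) (v.flatMap φ)).1
    have h4 := occ_append_le W (φ b) (v.flatMap φ)
    push_cast
    constructor <;> nlinarith

lemma length_flatMap_sum (φ : A → List A) (v : List A) :
    ((v.flatMap φ).length : ℝ) = (v.map (fun b => ((φ b).length : ℝ))).sum := by
  induction v with
  | nil => simp
  | cons b v ih =>
    rw [List.flatMap_cons, List.map_cons, List.sum_cons, List.length_append]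
    push_cast
    rw [ih]

lemma sum_affine (φ : A → List A) (W : List A) (c : ℝ) (v : List A) :
    (v.map (fun b => c * ((φ b).length : ℝ) - occ W (φ b))).sum =
      c * ((v.flatMap φ).length : ℝ) - (v.map (fun b => occ W (φ b))).sum := by
  induction v with
  | nil => simp
  | cons b v ih =>
    rw [List.flatMap_cons, List.map_cons, List.sum_cons, List.map_cons, List.sum_cons,
      List.length_append, ih]
    push_cast
    ring

lemma sum_map_nonneg {v : List A} {h : A → ℝ} (hh : ∀ b, 0 ≤ h b) : 0 ≤ (v.map h).sum := by
  induction v with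
  | nil => simp
  | cons b v ih =>
    rw [List.map_cons, List.sum_cons]
    have := hh b
    linarith

lemma le_sum_map {v : List A} {h : A → ℝ} (hh : ∀ b, 0 ≤ h b) {b : A} (hb : b ∈ v) :
    h b ≤ (v.map h).sum := by
  induction v with
  | nil => simp at hb
  | cons c v ih =>
    rw [List.map_cons, List.sum_cons]
    rcases List.mem_cons.1 hb with rfl | hb
    · have := sum_map_nonneg (v := v) hh
      linarith
    · have := ih hb
      have := hh c
      linarith

/-- uniform bounds for the frequency of `W` in the blocks of level `m` -/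
def Bd (σ : Substitution A) (W : List A) (m : ℕ) (lo hi : ℝ) : Prop :=
  ∀ b, lo * ((σ.iter m b).length : ℝ) ≤ occ W (σ.iter m b) ∧
    occ W (σ.iter m b) ≤ hi * ((σ.iter m b).length : ℝ)

lemma length_mul_le {σ : Substitution A} {m : ℕ} {η L : ℝ}
    (hη : ∀ b, L ≤ η * ((σ.iter m b).length : ℝ)) (v : List A) :
    L * v.length ≤ η * ((v.flatMap (σ.iter m)).length : ℝ) := by
  induction v with
  | nil => simp
  | cons b v ih =>
    rw [List.flatMap_cons, List.length_append, List.length_cons]
    push_cast
    have := hη b
    linarith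

lemma step {σ : Substitution A} {W : List A} {p m : ℕ} (hp : ∀ i j, i ∈ σ.iter p j) (hm : p ≤ m)
    {C : ℝ} (hC : ∀ b, ((σ.iter (2 * p) b).length : ℝ) ≤ C) [Nonempty A]
    {lo D η : ℝ} (hD : 0 ≤ D)
    (hη : ∀ b, (W.length : ℝ) ≤ η * ((σ.iter m b).length : ℝ)) (h : Bd σ W m lo (lo + D)) :
    ∃ lo', Bd σ W (m + p) lo' (lo' + ((1 - 1 / (2 * C)) * D + η)) := by
  obtain ⟨b₀⟩ := ‹Nonempty A›
  have hCpos : 1 ≤ C := by
    have h1 := σ.length_iter_pos (2 * p) b₀
    have h2 := hC b₀
    have h3 : (1 : ℝ) ≤ ((σ.iter (2 * p) b₀).length : ℝ) := by exact_mod_cast h1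
    linarith
  -- comparability of the lengths
  have hcmp : ∀ b, ((σ.iter (m + p) b).length : ℝ) ≤ C * ((σ.iter m b₀).length : ℝ) := by
    intro b
    obtain ⟨k, rfl⟩ := Nat.exists_eq_add_of_le' hm
    have h1 : ∀ b', (σ.iter k b').length ≤ (σ.iter (k + p) b₀).length := by
      intro b'
      rw [σ.iter_add p k b₀]
      obtain ⟨v1, v2, hv⟩ := List.append_of_mem (hp b' b₀)
      rw [hv, List.flatMap_append, List.flatMap_cons]
      simp only [List.length_append]
      omega
    have h2 : σ.iter (k + p + p) b = (σ.iter (2 * p) b).flatMap (σ.iter k) := by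
      rw [← σ.iter_add]
      congr 1
      ring
    rw [h2]
    have h3 := Substitution.length_flatMap_le _ (σ.iter k) h1 (σ.iter (2 * p) b)
    have h4 : (((σ.iter (2 * p) b).flatMap (σ.iter k)).length : ℝ) ≤
        ((σ.iter (k + p) b₀).length : ℝ) * ((σ.iter (2 * p) b).length : ℝ) := by
      exact_mod_cast h3
    refine h4.trans ?_
    rw [mul_comm]
    exact mul_le_mul_of_nonneg_right (hC b) (by positivity)
  have hkey : ∀ b, D / (2 * C) * ((σ.iter (m + p) b).length : ℝ) ≤
      D / 2 * ((σ.iter m b₀).length : ℝ) := by
    intro b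
    have h1 := mul_le_mul_of_nonneg_left (hcmp b) (show 0 ≤ D / (2 * C) by positivity)
    refine h1.trans (le_of_eq ?_)
    field_simp
  have hdec : ∀ b, σ.iter (m + p) b = (σ.iter p b).flatMap (σ.iter m) := fun b => σ.iter_add p m b
  have hLv : ∀ b, (W.length : ℝ) * ((σ.iter p b).length : ℝ) ≤
      η * ((σ.iter (m + p) b).length : ℝ) := by
    intro b
    rw [hdec]
    exact length_mul_le hη _
  have e : (1 - 1 / (2 * C)) * D + η = D - D / (2 * C) + η := by ring
  rw [e]
  rcases le_total (occ W (σ.iter m b₀)) ((lo + D / 2) * ((σ.iter m b₀).length : ℝ)) with hc | hc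
  · refine ⟨lo, fun b => ?_⟩
    have h1 := occ_flatMap W (σ.iter m) (σ.iter p b)
    rw [← hdec] at h1
    have h2 := sum_affine (σ.iter m) W lo (σ.iter p b)
    have h3 := sum_affine (σ.iter m) W (lo + D) (σ.iter p b)
    rw [← hdec] at h2 h3
    have h4 : 0 ≤ -((σ.iter p b).map
        (fun b => lo * ((σ.iter m b).length : ℝ) - occ W (σ.iter m b))).sum := by
      have : ∀ v : List A, (v.map
        (fun b => lo * ((σ.iter m b).length : ℝ) - occ W (σ.iter m b))).sum ≤ 0 := by
        intro v
        induction v with
        | nil => simp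
        | cons c v ih =>
          rw [List.map_cons, List.sum_cons]
          have := (h c).1
          linarith
      have := this (σ.iter p b)
      linarith
    have h5 := le_sum_map (v := σ.iter p b)
      (h := fun b => (lo + D) * ((σ.iter m b).length : ℝ) - occ W (σ.iter m b))
      (fun c => by have := (h c).2; linarith) (hp b₀ b)
    have h6 := hkey b
    have h7 := hLv b
    rw [h3] at h5
    rw [h2] at h4
    constructor
    · linarith [h1.1]
    · have h8 := h1.2
      linarith
  · refine ⟨lo + D / (2 * C), fun b => ?_⟩
    have h1 := occ_flatMap W (σ.iter m) (σ.iter p b)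
    rw [← hdec] at h1
    have h2 := sum_affine (σ.iter m) W lo (σ.iter p b)
    have h3 := sum_affine (σ.iter m) W (lo + D) (σ.iter p b)
    rw [← hdec] at h2 h3
    have h4 := sum_map_nonneg (v := σ.iter p b)
      (h := fun b => (lo + D) * ((σ.iter m b).length : ℝ) - occ W (σ.iter m b))
      (fun c => by have := (h c).2; linarith)
    have h5 : (σ.iter p b).map
        (fun b => lo * ((σ.iter m b).length : ℝ) - occ W (σ.iter m b)) =
        (σ.iter p b).map (fun b => - (occ W (σ.iter m b) - lo * ((σ.iter m b).length : ℝ))) := by
      apply List.map_congr_left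
      intro c _
      ring
    have h6 := le_sum_map (v := σ.iter p b)
      (h := fun b => occ W (σ.iter m b) - lo * ((σ.iter m b).length : ℝ))
      (fun c => by have := (h c).1; linarith) (hp b₀ b)
    have h7 : ∀ v : List A, (v.map (fun b => occ W (σ.iter m b) -
        lo * ((σ.iter m b).length : ℝ))).sum = - (v.map
        (fun b => lo * ((σ.iter m b).length : ℝ) - occ W (σ.iter m b))).sum := by
      intro v
      induction v with
      | nil => simp
      | cons c v ih =>
        rw [List.map_cons, List.sum_cons, ih, List.map_cons, List.sum_cons]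
        ring
    rw [h7, h2] at h6
    rw [h3] at h4
    have h8 := hkey b
    have h9 := hLv b
    constructor
    · linarith [h1.1]
    · have h10 := h1.2
      have e2 : lo + D / (2 * C) + (D - D / (2 * C) + η) = lo + D + η := by ring
      rw [e2]
      linarith

/-- existence of arbitrarily good uniform bounds -/
lemma exists_Bd [Fintype A] [Nonempty A] {σ : Substitution A} {p : ℕ} (hp : ∀ i j, i ∈ σ.iter p j)
    (hlen : ∀ a, Tendsto (fun n => (σ.iter n a).length) atTop atTop) (W : List A) {ε : ℝ}
    (hε : 0 < ε) : ∃ m lo, Bd σ W m lo (lo + ε) ∧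
      ∀ b, (W.length : ℝ) ≤ ε * ((σ.iter m b).length : ℝ) := by
  set C : ℝ := ((Finset.univ.sup (fun a : A => (σ.iter (2 * p) a).length) : ℕ) : ℝ) with hCdef
  have hC : ∀ b, ((σ.iter (2 * p) b).length : ℝ) ≤ C := by
    intro b
    have : (σ.iter (2 * p) b).length ≤ Finset.univ.sup (fun a : A => (σ.iter (2 * p) a).length) :=
      Finset.le_sup (f := fun a : A => (σ.iter (2 * p) a).length) (Finset.mem_univ b)
    rw [hCdef]
    exact_mod_cast this
  have hCpos : 1 ≤ C := by
    have b₀ : A := Classical.arbitrary A
    have h1 := σ.length_iter_pos (2 * p) b₀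
    have h2 := hC b₀
    have h3 : (1 : ℝ) ≤ ((σ.iter (2 * p) b₀).length : ℝ) := by exact_mod_cast h1
    linarith
  set η : ℝ := ε / (4 * C) with hη
  have hηpos : 0 < η := by positivity
  obtain ⟨m₀, hm₀⟩ : ∃ m₀, ∀ m ≥ m₀, ∀ b, (W.length : ℝ) ≤ η * ((σ.iter m b).length : ℝ) := by
    have h1 : ∀ b, ∀ᶠ m in atTop, (W.length : ℝ) ≤ η * ((σ.iter m b).length : ℝ) := by
      intro b
      obtain ⟨K, hK⟩ := exists_nat_ge ((W.length : ℝ) / η)
      filter_upwards [(hlen b).eventually_ge_atTop K] with m hm
      have h2 : (K : ℝ) ≤ ((σ.iter m b).length : ℝ) := by exact_mod_cast hm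
      rw [div_le_iff₀ hηpos] at hK
      nlinarith
    have h2 : ∀ᶠ m in atTop, ∀ b, (W.length : ℝ) ≤ η * ((σ.iter m b).length : ℝ) :=
      eventually_all.2 h1
    exact eventually_atTop.1 h2
  set q : ℝ := 1 - 1 / (2 * C) with hq
  have hq0 : 0 ≤ q := by
    rw [hq, sub_nonneg, div_le_one (by positivity)]
    linarith
  have hq1 : q < 1 := by
    rw [hq]
    have : 0 < 1 / (2 * C) := by positivity
    linarith
  set M := max m₀ p with hM
  have hind : ∀ j : ℕ, ∃ lo, Bd σ W (M + j * p) lo (lo + (q ^ j + 2 * C * η)) := by
    intro j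
    induction j with
    | zero =>
      refine ⟨0, fun b => ⟨?_, ?_⟩⟩
      · rw [zero_mul]; exact occ_nonneg _ _
      · have h1 := occ_le W (σ.iter (M + 0 * p) b)
        have h2 : (0 : ℝ) ≤ ((σ.iter (M + 0 * p) b).length : ℝ) := by positivity
        have h3 : 0 ≤ 2 * C * η := by positivity
        rw [pow_zero]
        nlinarith
    | succ j ih =>
      obtain ⟨lo, hlo⟩ := ih
      have hge : M ≤ M + j * p := Nat.le_add_right _ _
      obtain ⟨lo', hlo'⟩ := step (p := p) hp (m := M + j * p)
        (le_trans (le_max_right m₀ p) hge) hC (by positivity)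
        (hm₀ _ (le_trans (le_max_left m₀ p) hge)) hlo
      refine ⟨lo', ?_⟩
      have e : M + (j + 1) * p = M + j * p + p := by ring
      have e2 : q ^ (j + 1) + 2 * C * η = (1 - 1 / (2 * C)) * (q ^ j + 2 * C * η) + η := by
        rw [← hq, pow_succ]
        have : q * (2 * C) = 2 * C - 1 := by
          rw [hq]; field_simp
        linear_combination (-η) * this
      rw [e, e2]
      exact hlo'
  have hlim : Tendsto (fun j : ℕ => q ^ j) atTop (𝓝 0) := tendsto_pow_atTop_nhds_zero_of_lt_one hq0 hq1
  obtain ⟨j, hj⟩ := (hlim.eventually (gt_mem_nhds (show (0 : ℝ) < ε / 2 by positivity))).exists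
  obtain ⟨lo, hlo⟩ := hind j
  have hηC : 2 * C * η = ε / 2 := by rw [hη]; field_simp; norm_num
  refine ⟨M + j * p, lo, fun b => ⟨(hlo b).1, (hlo b).2.trans ?_⟩, fun b => ?_⟩
  · apply mul_le_mul_of_nonneg_right _ (by positivity)
    rw [hηC]
    linarith
  · refine (hm₀ (M + j * p) (le_trans (le_max_left m₀ p) (Nat.le_add_right M (j * p))) b).trans ?_
    apply mul_le_mul_of_nonneg_right _ (by positivity)
    rw [hη, div_le_iff₀ (by positivity)]
    nlinarith

/-- uniform bounds on the words of the language -/
lemma lang_bound [Fintype A] [Nonempty A] {σ : Substitution A} {p : ℕ} (hp : ∀ i j, i ∈ σ.iter p j)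
    (hlen : ∀ a, Tendsto (fun n => (σ.iter n a).length) atTop atTop) (W : List A) {ε : ℝ}
    (hε : 0 < ε) : ∃ lo K : ℝ, ∀ n, ∀ u ∈ σ.Lang n, lo * u.length - K ≤ occ W u ∧
      occ W u ≤ (lo + 2 * ε) * u.length + K := by
  obtain ⟨m, lo, hB, hW⟩ := exists_Bd hp hlen W hε
  set M : ℕ := Finset.univ.sup (fun a : A => (σ.iter m a).length) with hM
  have hM' : ∀ a, (σ.iter m a).length ≤ M := fun a =>
    Finset.le_sup (f := fun a : A => (σ.iter m a).length) (Finset.mem_univ a)
  have hlo : 0 ≤ lo + ε := by
    have b : A := Classical.arbitrary A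
    have h1 := (hB b).2
    have h2 := occ_nonneg W (σ.iter m b)
    have h3 : (1 : ℝ) ≤ ((σ.iter m b).length : ℝ) := by exact_mod_cast σ.length_iter_pos m b
    by_contra hcon
    push Not at hcon
    nlinarith
  refine ⟨lo, |lo| * (2 * M) + 2 * M + 2 * W.length, fun n u hu => ?_⟩
  obtain ⟨s, v, p', -, rfl, hs, hp'⟩ := σ.lang_decomp hM' hu
  have h1 := occ_append W (s ++ v.flatMap (σ.iter m)) p'
  have h1' := occ_append_le W (s ++ v.flatMap (σ.iter m)) p'
  have h2 := occ_append W s (v.flatMap (σ.iter m))
  have h2' := occ_append_le W s (v.flatMap (σ.iter m))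
  have h3 := occ_flatMap W (σ.iter m) v
  have h4 := occ_nonneg W s
  have h5 := occ_nonneg W p'
  have h6 := occ_le W s
  have h7 := occ_le W p'
  have h8 : lo * ((v.flatMap (σ.iter m)).length : ℝ) ≤ (v.map (fun b => occ W (σ.iter m b))).sum := by
    clear hu h1 h1' h2 h2' h3
    induction v with
    | nil => simp
    | cons b v ih =>
      rw [List.flatMap_cons, List.map_cons, List.sum_cons, List.length_append]
      push_cast
      have := (hB b).1
      linarith
  have h9 : (v.map (fun b => occ W (σ.iter m b))).sum ≤
      (lo + ε) * ((v.flatMap (σ.iter m)).length : ℝ) := by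
    clear hu h1 h1' h2 h2' h3 h8
    induction v with
    | nil => simp
    | cons b v ih =>
      rw [List.flatMap_cons, List.map_cons, List.sum_cons, List.length_append]
      push_cast
      have := (hB b).2
      linarith
  have h10 := length_mul_le hW v
  have hs' : (s.length : ℝ) ≤ M := by exact_mod_cast hs
  have hp'' : (p'.length : ℝ) ≤ M := by exact_mod_cast hp'
  have hs0 : (0 : ℝ) ≤ s.length := by positivity
  have hp0 : (0 : ℝ) ≤ p'.length := by positivity
  have hW0 : (0 : ℝ) ≤ W.length := by positivity
  have hM0 : (0 : ℝ) ≤ M := by positivity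
  rw [List.length_append, List.length_append]
  push_cast
  constructor
  · have h11 : lo * ((s.length : ℝ) + p'.length) ≤ |lo| * (2 * M) := by
      calc lo * ((s.length : ℝ) + p'.length) ≤ |lo| * ((s.length : ℝ) + p'.length) :=
            mul_le_mul_of_nonneg_right (le_abs_self lo) (by positivity)
        _ ≤ |lo| * (2 * M) := mul_le_mul_of_nonneg_left (by linarith) (abs_nonneg _)
    linarith [h1.1, h2.1, h3.1]
  · have h11 : 0 ≤ (lo + 2 * ε) * ((s.length : ℝ) + p'.length) := by
      apply mul_nonneg _ (by positivity)
      linarith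
    have h12 : 0 ≤ |lo| * (2 * M) := by positivity
    linarith [h3.2]

/-- the number of occurrences in a window is the Birkhoff sum of the indicator of the cylinder -/
lemma occ_window (W : List A) (x : BiSeq A) (k : ℤ) (N : ℕ) :
    occ W (window x k N) ≤ ∑ j ∈ Finset.range N, ind (window x (k + j) W.length = W) ∧
    ∑ j ∈ Finset.range N, ind (window x (k + j) W.length = W) ≤
      occ W (window x k N) + min (N : ℝ) W.length := by
  induction N generalizing k with
  | zero =>
    simp [window, occ]
  | succ N ih =>
    obtain ⟨h1, h2⟩ := ih (k + 1)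
    have e1 : ∑ j ∈ Finset.range (N + 1), ind (window x (k + j) W.length = W) =
        ∑ j ∈ Finset.range N, ind (window x (k + 1 + j) W.length = W) +
        ind (window x k W.length = W) := by
      rw [Finset.sum_range_succ']
      congr 1
      · apply Finset.sum_congr rfl
        intro j _
        have : k + ((j + 1 : ℕ) : ℤ) = k + 1 + j := by push_cast; ring
        rw [this]
      · simp
    rw [e1]
    have e2 : occ W (window x k (N + 1)) = ind (W <+: window x k (N + 1)) +
        occ W (window x (k + 1) N) := by
      rw [window_succ, occ]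
    rw [e2]
    have htake : ∀ l ≤ N + 1, window x k l <+: window x k (N + 1) := by
      intro l hl
      rw [window_eq_ofFn, window_eq_ofFn, List.prefix_iff_eq_take]
      apply List.ext_getElem?
      intro i
      rw [List.getElem?_take, List.getElem?_ofFn, List.getElem?_ofFn]
      simp only [List.length_ofFn]
      by_cases hi : i < l
      · simp [hi, hi.trans_le hl]
      · simp [hi]
    have hiff : W.length ≤ N + 1 → (W <+: window x k (N + 1) ↔ window x k W.length = W) := by
      intro hl
      constructor
      · intro h3
        have h4 := List.prefix_of_prefix_length_le (htake W.length hl) h3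
          (by rw [window_length])
        exact h4.eq_of_length (by rw [window_length])
      · intro h3
        have h4 := htake _ hl
        rwa [h3] at h4
    rcases le_or_gt W.length (N + 1) with h | h
    · have h3 := hiff h
      rw [ind_congr h3]
      have h5 : min (N : ℝ) W.length ≤ min ((N + 1 : ℕ) : ℝ) W.length := by
        apply min_le_min _ le_rfl
        push_cast; linarith
      constructor <;> linarith
    · have h3 : ¬ (W <+: window x k (N + 1)) := by
        intro h4
        have := h4.length_le
        rw [window_length] at this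
        omega
      have h6 : (N : ℝ) + 1 ≤ W.length := by exact_mod_cast h.le
      have h5 : min ((N + 1 : ℕ) : ℝ) (W.length : ℝ) = N + 1 := by
        push_cast
        exact min_eq_left h6
      have h7 : min (N : ℝ) W.length = N := min_eq_left (by linarith)
      rw [h5, ind_not h3]
      rw [h7] at h2
      have h8 := ind_nonneg (window x k W.length = W)
      have h9 := ind_le_one (window x k W.length = W)
      constructor
      · linarith
      · linarith

end SubstLeb
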