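import Pool.Agent.TH292.SL.Defs

open MeasureTheory

namespace SubstLeb

variable {A : Type}

lemma prefix_decomp (φ : A → List A) (M : ℕ) (hM : ∀ a, (φ a).length ≤ M) :
    ∀ (v w : List A), w <+: v.flatMap φ →
      ∃ v' p, v' <+: v ∧ w = v'.flatMap φ ++ p ∧ p.length ≤ M := by
  intro v
  induction v with
  | nil =>
    intro w hw
    simp only [List.flatMap_nil, List.prefix_nil] at hw
    exact ⟨[], [], by simp, by simp [hw], by simp⟩
  | cons a v ih =>
    rintro w ⟨t, ht⟩
    rw [List.flatMap_cons, List.append_eq_append_iff] at ht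
    rcases ht with ⟨as, h1, h2⟩ | ⟨bs, h1, h2⟩
    · refine ⟨[], w, by simp, by simp, ?_⟩
      have := hM a
      rw [h1] at this
      simp at this
      omega
    · obtain ⟨v', p, h3, h4, h5⟩ := ih bs ⟨t, h2.symm⟩
      refine ⟨a :: v', p, ?_, ?_, h5⟩
      · exact (List.prefix_cons_inj a).2 h3
      · rw [h1, h4]; simp

lemma infix_decomp (φ : A → List A) (M : ℕ) (hM : ∀ a, (φ a).length ≤ M) :
    ∀ (v w : List A), w <:+: v.flatMap φ →
      ∃ s v' p, v' <:+: v ∧ w = s ++ v'.flatMap φ ++ p ∧ s.length ≤ M ∧ p.length ≤ M := by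
  intro v
  induction v with
  | nil =>
    intro w hw
    simp only [List.flatMap_nil, List.infix_nil] at hw
    exact ⟨[], [], [], by simp, by simp [hw], by simp, by simp⟩
  | cons a v ih =>
    rintro w ⟨x, y, hxy⟩
    rw [List.flatMap_cons, List.append_assoc, List.append_eq_append_iff] at hxy
    rcases hxy with ⟨as, h1, h2⟩ | ⟨bs, h1, h2⟩
    · rw [List.append_eq_append_iff] at h2
      rcases h2 with ⟨as', h3, h4⟩ | ⟨bs, h3, h4⟩
      · refine ⟨w, [], [], by simp, by simp, ?_, by simp⟩
        have := hM a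
        rw [h1, h3] at this
        simp at this
        omega
      · obtain ⟨v', p, h5, h6, h7⟩ := prefix_decomp φ M hM v bs ⟨y, h4.symm⟩
        refine ⟨as, v', p, ?_, ?_, ?_, h7⟩
        · exact h5.isInfix.trans (List.suffix_cons a v).isInfix
        · rw [h3, h6]; simp
        · have := hM a
          rw [h1] at this
          simp at this
          omega
    · obtain ⟨s, v', p, h5, h6, h7⟩ := ih w ⟨bs, y, by rw [h2]; simp⟩
      exact ⟨s, v', p, h5.trans (List.suffix_cons a v).isInfix, h6, h7⟩

namespace Substitution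

variable (σ : Substitution A)

lemma onWord_append (u v : List A) : σ.onWord (u ++ v) = σ.onWord u ++ σ.onWord v := by
  simp [onWord]

lemma iterate_onWord (n : ℕ) (w : List A) : σ.onWord^[n] w = w.flatMap (σ.iter n) := by
  induction n generalizing w with
  | zero =>
    have : σ.iter 0 = fun a => [a] := rfl
    rw [this]
    simp
  | succ n ih =>
    rw [Function.iterate_succ_apply, ih, onWord, List.flatMap_assoc]
    congr 1
    funext a
    rw [iter, Function.iterate_succ_apply, ih]
    simp [onWord]

lemma iter_zero (a : A) : σ.iter 0 a = [a] := rfl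

lemma iter_succ (n : ℕ) (a : A) : σ.iter (n + 1) a = (σ.word a).flatMap (σ.iter n) := by
  rw [iter, Function.iterate_succ_apply, iterate_onWord]
  simp [onWord]

lemma iter_succ' (n : ℕ) (a : A) : σ.iter (n + 1) a = (σ.iter n a).flatMap σ.word := by
  rw [iter, Function.iterate_succ_apply']
  rfl

lemma iter_add (k m : ℕ) (a : A) : σ.iter (m + k) a = (σ.iter k a).flatMap (σ.iter m) := by
  rw [iter, Function.iterate_add_apply, iterate_onWord]
  rfl

/-- words of the language which occur at level `n` -/
def Lang (n : ℕ) : Set (List A) := {w | ∃ a, w <:+: σ.iter n a}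

lemma nil_mem_lang (n : ℕ) [Nonempty A] : ([] : List A) ∈ σ.Lang n :=
  ⟨Classical.arbitrary A, List.nil_infix⟩

lemma lang_infix {n : ℕ} {w w' : List A} (h : w' <:+: w) (hw : w ∈ σ.Lang n) : w' ∈ σ.Lang n := by
  obtain ⟨a, ha⟩ := hw
  exact ⟨a, h.trans ha⟩

lemma length_flatMap_ge (c : ℕ) (φ : A → List A) (h : ∀ a, c ≤ (φ a).length) (w : List A) :
    c * w.length ≤ (w.flatMap φ).length := by
  induction w with
  | nil => simp
  | cons a w ih =>
    rw [List.flatMap_cons, List.length_append, List.length_cons]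
    have := h a
    nlinarith

lemma length_flatMap_le (c : ℕ) (φ : A → List A) (h : ∀ a, (φ a).length ≤ c) (w : List A) :
    (w.flatMap φ).length ≤ c * w.length := by
  induction w with
  | nil => simp
  | cons a w ih =>
    rw [List.flatMap_cons, List.length_append, List.length_cons]
    have := h a
    nlinarith

lemma one_le_word (a : A) : 1 ≤ (σ.word a).length :=
  List.length_pos_iff.2 (σ.word_ne_nil a)

lemma length_iter_mono {n m : ℕ} (h : n ≤ m) (a : A) : (σ.iter n a).length ≤ (σ.iter m a).length := by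
  induction m, h using Nat.le_induction with
  | base => exact le_rfl
  | succ m hm ih =>
    rw [iter_succ']
    have := length_flatMap_ge 1 σ.word σ.one_le_word (σ.iter m a)
    omega

lemma length_iter_pos (n : ℕ) (a : A) : 1 ≤ (σ.iter n a).length := by
  have := σ.length_iter_mono (Nat.zero_le n) a
  simpa [iter_zero] using this

/-- decomposition of the words of the language into blocks -/
lemma lang_decomp [Nonempty A] {m M : ℕ} (hM : ∀ a, (σ.iter m a).length ≤ M) {n : ℕ} {w : List A}
    (hw : w ∈ σ.Lang n) :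
    ∃ s v p, v ∈ σ.Lang (n - m) ∧ w = s ++ v.flatMap (σ.iter m) ++ p ∧ s.length ≤ M ∧
      p.length ≤ M := by
  obtain ⟨a, ha⟩ := hw
  rcases le_or_gt m n with h | h
  · have h1 : σ.iter n a = (σ.iter (n - m) a).flatMap (σ.iter m) := by
      rw [← iter_add]
      congr 1
      omega
    rw [h1] at ha
    obtain ⟨s, v, p, h2, h3, h4⟩ := infix_decomp _ M hM _ _ ha
    exact ⟨s, v, p, ⟨a, h2⟩, h3, h4⟩
  · refine ⟨w, [], [], σ.nil_mem_lang _, by simp, ?_, by simp⟩
    calc w.length ≤ (σ.iter n a).length := ha.length_le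
      _ ≤ (σ.iter m a).length := σ.length_iter_mono h.le a
      _ ≤ M := hM a

end Substitution

end SubstLeb
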